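import Pool.Agent.N988.EZ.Stm
import Pool.Agent.N78.EA_IO

/-!
# Project EZ (helper988): conditional Borel-Cantelli for the couplings at temperature zero
-/

set_option autoImplicit false

open MeasureTheory Set Filter ProbabilityTheory
open scoped ENNReal Topology

namespace Pool.Agent.N700.EZ

open Pool.Agent.N988.EA Pool.Agent.N988.EZ Pool.Agent.N80.EA Pool.Agent.N78.EA

theorem meas_ps : Measurable (fun p : ℝ × ℝ => ps p.1 p.2) := by
  unfold ps
  fun_prop

theorem ps_neg (a b : ℝ) : ps (-a) b = -ps a b := by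
  unfold ps
  have h1 : |-a + b| = |a - b| := by
    rw [← abs_neg]; congr 1; ring
  have h2 : |-a - b| = |a + b| := by
    rw [← abs_neg]; congr 1; ring
  rw [h1, h2]
  ring

theorem meas_K0 (b : ℕ) : ∀ n : ℕ, Measurable (K0 n : (Edge b n → ℝ) → ℝ) := by
  intro n
  induction n with
  | zero => exact measurable_pi_apply _
  | succ n ih =>
    have h1 : (K0 (n + 1) : (Edge b (n + 1) → ℝ) → ℝ) =
        fun J => ∑ i : Fin b, ps (K0 n (half i false J)) (K0 n (half i true J)) := rfl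
    rw [h1]
    refine Finset.measurable_sum _ fun i _ => ?_
    have h2 : Measurable (fun J : Edge b (n + 1) → ℝ =>
        (K0 n (half i false J), K0 n (half i true J))) :=
      (ih.comp (meas_half i false)).prodMk (ih.comp (meas_half i true))
    exact Measurable.comp (g := fun p : ℝ × ℝ => ps p.1 p.2)
      (f := fun J : Edge b (n + 1) → ℝ => (K0 n (half i false J), K0 n (half i true J))) meas_ps h2

/-! ### the laws at temperature zero -/

/-- the law of a branch -/
noncomputable def br0 (ν : Measure ℝ) : Measure ℝ := (ν.prod ν).map fun p => ps p.1 p.2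

/-- the next law -/
noncomputable def ls0 (b : ℕ) (ν : Measure ℝ) : Measure ℝ :=
  (Measure.pi fun _ : Fin b => br0 ν).map fun y => ∑ i, y i

/-- the laws of the couplings -/
noncomputable def lw0 (μ : Measure ℝ) (b : ℕ) : ℕ → Measure ℝ
  | 0 => μ
  | n + 1 => ls0 b (lw0 μ b n)

section

variable (μ : Measure ℝ) [IsProbabilityMeasure μ] (b : ℕ)

instance instBr0 (ν : Measure ℝ) [IsProbabilityMeasure ν] : IsProbabilityMeasure (br0 ν) :=
  Measure.isProbabilityMeasure_map meas_ps.aemeasurable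

instance instLs0 (ν : Measure ℝ) [IsProbabilityMeasure ν] : IsProbabilityMeasure (ls0 b ν) :=
  Measure.isProbabilityMeasure_map (meas_sum b).aemeasurable

theorem lw0_prob : ∀ n : ℕ, IsProbabilityMeasure (lw0 μ b n)
  | 0 => by unfold lw0; infer_instance
  | n + 1 => by
    have := lw0_prob n
    unfold lw0
    infer_instance

instance instLw0 (n : ℕ) : IsProbabilityMeasure (lw0 μ b n) := lw0_prob μ b n

theorem mp_two0 {n : ℕ} (h : MeasurePreserving (K0 n) (P μ b n) (lw0 μ b n)) :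
    MeasurePreserving (fun (L : Bool × Edge b n → ℝ) =>
      (K0 n (fun e => L (false, e)), K0 n (fun e => L (true, e))))
      (Measure.pi fun _ : Bool × Edge b n => μ) ((lw0 μ b n).prod (lw0 μ b n)) :=
  (h.prod h).comp (mp_halves μ b n)

theorem mp_K0 : ∀ n : ℕ, MeasurePreserving (K0 n) (P μ b n) (lw0 μ b n) := by
  intro n
  induction n with
  | zero => exact measurePreserving_eval (fun _ : Edge b 0 => μ) ()
  | succ n ih =>
    have h0 : MeasurePreserving (fun p : ℝ × ℝ => ps p.1 p.2)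
        ((lw0 μ b n).prod (lw0 μ b n)) (br0 (lw0 μ b n)) := ⟨meas_ps, rfl⟩
    have h1 := h0.comp (mp_two0 μ b ih)
    have h2 := measurePreserving_pi (fun _ : Fin b => Measure.pi fun _ : Bool × Edge b n => μ)
      (fun _ : Fin b => br0 (lw0 μ b n)) (fun _ => h1)
    have h3 : MeasurePreserving (fun y : Fin b → ℝ => ∑ i, y i)
        (Measure.pi fun _ : Fin b => br0 (lw0 μ b n)) (lw0 μ b (n + 1)) := ⟨meas_sum b, rfl⟩
    have h4 := (h3.comp h2).comp (mp_branches μ b n)
    have h5 : (K0 (n + 1) : (Edge b (n + 1) → ℝ) → ℝ) =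
        fun J => ∑ i : Fin b, ps (K0 n fun e => J (i, false, e)) (K0 n fun e => J (i, true, e)) :=
      rfl
    rw [h5]
    simp only [Function.comp_def] at h4
    exact h4

theorem symm_br0 {ν : Measure ℝ} [IsProbabilityMeasure ν] (h : ν.map (fun x => -x) = ν) :
    (br0 ν).map (fun x => -x) = br0 ν := by
  have h1 : MeasurePreserving (fun x : ℝ => -x) ν ν := ⟨measurable_neg, h⟩
  have h2 := h1.prod (MeasurePreserving.id ν)
  unfold br0
  rw [Measure.map_map measurable_neg meas_ps]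
  have h3 : (fun x : ℝ => -x) ∘ (fun p : ℝ × ℝ => ps p.1 p.2) =
      (fun p : ℝ × ℝ => ps p.1 p.2) ∘ (Prod.map (fun x : ℝ => -x) id) := by
    funext p
    simp only [Function.comp_apply, Prod.map_fst, Prod.map_snd, id_eq]
    rw [ps_neg]
  rw [h3, ← Measure.map_map meas_ps h2.measurable, h2.map_eq]

theorem symm_ls0 {ν : Measure ℝ} [IsProbabilityMeasure ν] (h : ν.map (fun x => -x) = ν) :
    (ls0 b ν).map (fun x => -x) = ls0 b ν := by
  have h1 : MeasurePreserving (fun x : ℝ => -x) (br0 ν) (br0 ν) := ⟨measurable_neg, symm_br0 h⟩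
  have h2 := measurePreserving_pi (fun _ : Fin b => br0 ν) (fun _ : Fin b => br0 ν) (fun _ => h1)
  unfold ls0
  rw [Measure.map_map measurable_neg (meas_sum b)]
  have h3 : (fun x : ℝ => -x) ∘ (fun y : Fin b → ℝ => ∑ i, y i) =
      (fun y : Fin b → ℝ => ∑ i, y i) ∘ (fun (a : Fin b → ℝ) (i : Fin b) => -(a i)) := by
    funext y
    simp only [Function.comp_apply, Finset.sum_neg_distrib]
  rw [h3, ← Measure.map_map (meas_sum b) h2.measurable, h2.map_eq]

theorem symm_lw0 (h : μ.map (fun x => -x) = μ) : ∀ n : ℕ,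
    (lw0 μ b n).map (fun x => -x) = lw0 μ b n
  | 0 => h
  | n + 1 => symm_ls0 b (symm_lw0 h n)

end

/-! ### the coordinates -/

section coord

variable {b : ℕ} {p : ℕ → Fin b × Bool}

theorem sib0_congr {n : ℕ} {J J' : EdgeInf b p → ℝ} (h : ∀ x ∈ FS p n, J x = J' x) :
    sib0 p J (n + 1) = sib0 p J' (n + 1) := by
  unfold sib0
  congr 1
  funext e
  have he : ((p (n + 1)).1, !(p (n + 1)).2) ≠ p (n + 1) := by
    intro h1
    have h2 := congrArg Prod.snd h1
    simp at h2
  rw [cpl_neg p J (n + 1) ((p (n + 1)).1, !(p (n + 1)).2, e) he,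
    cpl_neg p J' (n + 1) ((p (n + 1)).1, !(p (n + 1)).2, e) he]
  exact h _ ⟨rfl, rfl⟩

/-- the branches of `H (n + 1)` -/
noncomputable def W0 (p : ℕ → Fin b × Bool) (n : ℕ) (J : EdgeInf b p → ℝ) (i : Fin b) : ℝ :=
  ps (K0 n fun e => cpl p J (n + 1) (i, false, e)) (K0 n fun e => cpl p J (n + 1) (i, true, e))

theorem own0_succ (n : ℕ) (J : EdgeInf b p → ℝ) : own0 p J (n + 1) = ∑ i, W0 p n J i := rfl

end coord

section law

variable (μ : Measure ℝ) [IsProbabilityMeasure μ] {b : ℕ} (p : ℕ → Fin b × Bool)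

theorem mp_W0 (h2 : S_MARG) (n : ℕ) : MeasurePreserving (fun (J : EdgeInf b p → ℝ) => W0 p n J)
    (Measure.infinitePi fun _ : EdgeInf b p => μ)
    (Measure.pi fun _ : Fin b => br0 (lw0 μ b n)) := by
  have h0 : MeasurePreserving (fun p : ℝ × ℝ => ps p.1 p.2)
      ((lw0 μ b n).prod (lw0 μ b n)) (br0 (lw0 μ b n)) := ⟨meas_ps, rfl⟩
  have h1 := h0.comp (mp_two0 μ b (mp_K0 μ b n))
  have h3 := measurePreserving_pi (fun _ : Fin b => Measure.pi fun _ : Bool × Edge b n => μ)
    (fun _ : Fin b => br0 (lw0 μ b n)) (fun _ => h1)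
  exact (h3.comp (mp_branches μ b n)).comp (mp_cpl μ p h2 (n + 1))

/-- The couplings of the two halves of the branch containing `H n`. -/
theorem mp_pair0 (h2 : S_MARG) (n : ℕ) :
    MeasurePreserving (fun (J : EdgeInf b p → ℝ) =>
      (K0 n (fun e => cpl p J (n + 1) ((p n).1, false, e)),
        K0 n (fun e => cpl p J (n + 1) ((p n).1, true, e))))
    (Measure.infinitePi fun _ : EdgeInf b p => μ) ((lw0 μ b n).prod (lw0 μ b n)) := by
  have h1 := (measurePreserving_eval (fun _ : Fin b => Measure.pi fun _ : Bool × Edge b n => μ)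
      (p n).1).comp (mp_branches μ b n)
  exact ((mp_two0 μ b (mp_K0 μ b n)).comp h1).comp (mp_cpl μ p h2 (n + 1))

theorem own0_eq (J : EdgeInf b p → ℝ) (n : ℕ) :
    own0 p J n = K0 n (fun e => cpl p J (n + 1) ((p n).1, (p n).2, e)) := by
  unfold own0
  congr 1
  funext e
  exact (cpl_pos p J n ((p n).1, (p n).2, e) rfl).symm

theorem mp_sib0 (h2 : S_MARG) (n : ℕ) :
    MeasurePreserving (fun (J : EdgeInf b p → ℝ) => sib0 p J n)
    (Measure.infinitePi fun _ : EdgeInf b p => μ) (lw0 μ b n) := by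
  have h1 := mp_pair0 μ p h2 n
  have h3 : MeasurePreserving (Prod.fst : ℝ × ℝ → ℝ) ((lw0 μ b n).prod (lw0 μ b n))
      (lw0 μ b n) := measurePreserving_fst
  have h4 : MeasurePreserving (Prod.snd : ℝ × ℝ → ℝ) ((lw0 μ b n).prod (lw0 μ b n))
      (lw0 μ b n) := measurePreserving_snd
  unfold sib0
  rcases h5 : (p n).2 with _ | _
  · exact h4.comp h1
  · exact h3.comp h1

theorem meas_own0 (h2 : S_MARG) (n : ℕ) :
    Measurable (fun (J : EdgeInf b p → ℝ) => own0 p J n) :=
  (meas_K0 b n).comp (h2 (Measure.dirac 0) b p n).1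

/-- No ties. -/
theorem no_tie (h2 : S_MARG) (n : ℕ) (hat : ∀ x, (lw0 μ b n) {x} = 0) :
    ∀ᵐ J ∂(Measure.infinitePi fun _ : EdgeInf b p => μ), |sib0 p J n| ≠ |own0 p J n| := by
  have h1 := mp_pair0 μ p h2 n
  have h3 : ∀ᵐ z ∂((lw0 μ b n).prod (lw0 μ b n)), |z.1| ≠ |z.2| := by
    rw [ae_iff]
    have hm : MeasurableSet {z : ℝ × ℝ | ¬ |z.1| ≠ |z.2|} := by
      have e : {z : ℝ × ℝ | ¬ |z.1| ≠ |z.2|} = {z : ℝ × ℝ | |z.1| = |z.2|} := by
        ext z
        simp
      rw [e]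
      exact measurableSet_eq_fun measurable_fst.abs measurable_snd.abs
    rw [Measure.measure_prod_null hm]
    refine Filter.Eventually.of_forall fun x => ?_
    have e2 : (Prod.mk x ⁻¹' {z : ℝ × ℝ | ¬ |z.1| ≠ |z.2|}) ⊆ {x} ∪ {-x} := by
      intro y hy
      simp only [mem_preimage, mem_ofPred_eq, not_not] at hy
      rcases abs_eq_abs.1 hy with h | h
      · left; exact h.symm
      · right
        change y = -x
        rw [h, neg_neg]
    refine measure_mono_null e2 ?_
    rw [measure_union_null_iff]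
    exact ⟨hat x, hat (-x)⟩
  have h4 := h1.quasiMeasurePreserving.ae h3
  filter_upwards [h4] with J hJ
  rw [own0_eq]
  unfold sib0
  rcases h5 : (p n).2 with _ | _
  · exact fun h => hJ h.symm
  · exact hJ

end law

section step

variable (μ : Measure ℝ) [IsProbabilityMeasure μ] {b : ℕ} (p : ℕ → Fin b × Bool)

theorem step (h2 : S_MARG) (hb : 2 ≤ b) (hs : μ.map (fun x => -x) = μ) (n : ℕ)
    (A : Set (EdgeInf b p → ℝ)) (hA : MeasurableSet A) (hA' : Dep (Past p n) A) :
    (Measure.infinitePi fun _ : EdgeInf b p => μ)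
        (A ∩ {J | |own0 p J (n + 1)| < |sib0 p J (n + 1)|}) +
      ((4 : ℝ≥0∞)⁻¹ ^ b * (4 : ℝ≥0∞)⁻¹ ^ b) *
        (Measure.infinitePi fun _ : EdgeInf b p => μ) A ≤
    (Measure.infinitePi fun _ : EdgeInf b p => μ) A := by
  set Q := Measure.infinitePi fun _ : EdgeInf b p => μ with hQ
  obtain ⟨M, hM0, m1, m2, m3, m4, m5, m6⟩ :=
    median (br0 (lw0 μ b n)) (symm_br0 (symm_lw0 μ b hs n))
  obtain ⟨i1, hi1⟩ : ∃ i1 : Fin b, i1 ≠ (p n).1 := by
    have : Nontrivial (Fin b) := Fin.nontrivial_iff_two_le.2 hb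
    exact exists_ne _
  let sp : Fin b → Set ℝ := fun i =>
    if i = (p n).1 then univ else if i = i1 then Ici M else Ici 0
  let sm : Fin b → Set ℝ := fun i =>
    if i = (p n).1 then univ else if i = i1 then Iic (-M) else Iic 0
  let Bp : Set (EdgeInf b p → ℝ) := {J | W0 p n J ∈ Set.pi univ sp}
  let Bm : Set (EdgeInf b p → ℝ) := {J | W0 p n J ∈ Set.pi univ sm}
  let C : Set (EdgeInf b p → ℝ) := {J | |sib0 p J (n + 1)| ≤ M}
  let X : Set (EdgeInf b p → ℝ) := {J | 0 ≤ W0 p n J (p n).1}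
  have hsp : ∀ i, MeasurableSet (sp i) := by
    intro i
    simp only [sp]
    split_ifs
    · exact MeasurableSet.univ
    · exact measurableSet_Ici
    · exact measurableSet_Ici
  have hsm : ∀ i, MeasurableSet (sm i) := by
    intro i
    simp only [sm]
    split_ifs
    · exact MeasurableSet.univ
    · exact measurableSet_Iic
    · exact measurableSet_Iic
  have hW := mp_W0 μ p h2 n
  have hS := mp_sib0 μ p h2 (n + 1)
  have hBp : MeasurableSet Bp := hW.measurable (MeasurableSet.univ_pi hsp)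
  have hBm : MeasurableSet Bm := hW.measurable (MeasurableSet.univ_pi hsm)
  have hC : MeasurableSet C := measurableSet_le hS.measurable.abs measurable_const
  have hX : MeasurableSet X :=
    measurableSet_le measurable_const ((measurable_pi_apply _).comp hW.measurable)
  -- lower bounds
  have vBp : (4 : ℝ≥0∞)⁻¹ ^ b ≤ Q Bp := by
    have e1 : Q Bp = (Measure.pi fun _ : Fin b => br0 (lw0 μ b n)) (Set.pi univ sp) :=
      hW.measure_preimage (MeasurableSet.univ_pi hsp).nullMeasurableSet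
    rw [e1]
    refine box_le _ _ fun i => ?_
    simp only [sp]
    split_ifs
    · rw [measure_univ]
      exact ENNReal.inv_le_one.2 (by norm_num)
    · exact toE m1
    · exact toE m5
  have vBm : (4 : ℝ≥0∞)⁻¹ ^ b ≤ Q Bm := by
    have e1 : Q Bm = (Measure.pi fun _ : Fin b => br0 (lw0 μ b n)) (Set.pi univ sm) :=
      hW.measure_preimage (MeasurableSet.univ_pi hsm).nullMeasurableSet
    rw [e1]
    refine box_le _ _ fun i => ?_
    simp only [sm]
    split_ifs
    · rw [measure_univ]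
      exact ENNReal.inv_le_one.2 (by norm_num)
    · exact toE m3
    · exact toE m6
  have vC : (4 : ℝ≥0∞)⁻¹ ^ b ≤ Q C := by
    have hm : MeasurableSet {x : ℝ | |x| ≤ M} := measurableSet_le measurable_id.abs measurable_const
    have e1 : Q C = (lw0 μ b (n + 1)) {x | |x| ≤ M} :=
      hS.measure_preimage hm.nullMeasurableSet
    have e2 : (lw0 μ b (n + 1)) {x | |x| ≤ M} =
        (Measure.pi fun _ : Fin b => br0 (lw0 μ b n)) {y | |∑ i, y i| ≤ M} :=
      Measure.map_apply (meas_sum b) hm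
    rw [e1, e2]
    exact sum_le _ M hM0 (toE m2) (toE m4) b
  -- dependence
  have dW : ∀ J J' : EdgeInf b p → ℝ, (∀ x ∈ FY p n, J x = J' x) → ∀ i, i ≠ (p n).1 →
      W0 p n J i = W0 p n J' i := by
    intro J J' h i hi
    unfold W0
    rw [cpl_other h i hi false, cpl_other h i hi true]
  have dBp : Dep (FY p n) Bp := by
    intro J J' h
    have h3 : ∀ i, W0 p n J i ∈ sp i ↔ W0 p n J' i ∈ sp i := by
      intro i
      by_cases hi : i = (p n).1
      · simp [sp, hi]
      · rw [dW J J' h i hi]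
    change (∀ i, i ∈ univ → W0 p n J i ∈ sp i) ↔ ∀ i, i ∈ univ → W0 p n J' i ∈ sp i
    exact forall_congr' fun i => imp_congr Iff.rfl (h3 i)
  have dBm : Dep (FY p n) Bm := by
    intro J J' h
    have h3 : ∀ i, W0 p n J i ∈ sm i ↔ W0 p n J' i ∈ sm i := by
      intro i
      by_cases hi : i = (p n).1
      · simp [sm, hi]
      · rw [dW J J' h i hi]
    change (∀ i, i ∈ univ → W0 p n J i ∈ sm i) ↔ ∀ i, i ∈ univ → W0 p n J' i ∈ sm i
    exact forall_congr' fun i => imp_congr Iff.rfl (h3 i)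
  have dC : Dep (FS p n) C := by
    intro J J' h
    change |sib0 p J (n + 1)| ≤ M ↔ |sib0 p J' (n + 1)| ≤ M
    rw [sib0_congr h]
  have dX : Dep (Past p n) X := by
    intro J J' h
    have h3 : W0 p n J (p n).1 = W0 p n J' (p n).1 := by
      unfold W0
      rw [cpl_branch h n le_rfl false, cpl_branch h n le_rfl true]
    change 0 ≤ W0 p n J (p n).1 ↔ 0 ≤ W0 p n J' (p n).1
    rw [h3]
  have prod3 : ∀ (A0 B0 : Set (EdgeInf b p → ℝ)), MeasurableSet A0 → MeasurableSet B0 →
      Dep (Past p n) A0 → Dep (FY p n) B0 → Q (A0 ∩ (B0 ∩ C)) = Q A0 * (Q B0 * Q C) := by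
    intro A0 B0 a1 a2 a3 a4
    rw [hQ, indep_dep μ (disj1 p n) a1 (a2.inter hC) a3
      ((a4.mono subset_union_left).inter (dC.mono subset_union_right)),
      indep_dep μ (disj2 p n) a2 hC a4 dC]
  -- the three parts
  have ex : ∀ J ∈ Bp ∩ C, 0 ≤ W0 p n J (p n).1 → ¬ |own0 p J (n + 1)| < |sib0 p J (n + 1)| := by
    rintro J ⟨hJ, hJC⟩ h0
    have h3 : ∀ i, 0 ≤ W0 p n J i := by
      intro i
      by_cases hi : i = (p n).1
      · rw [hi]; exact h0
      · have := hJ i trivial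
        simp only [sp, if_neg hi] at this
        split_ifs at this
        · exact hM0.trans this
        · exact this
    have h4 : M ≤ W0 p n J i1 := by
      have := hJ i1 trivial
      simpa only [sp, if_neg hi1, if_true, mem_Ici] using this
    have h5 : M ≤ own0 p J (n + 1) := by
      rw [own0_succ]
      exact h4.trans (Finset.single_le_sum (fun i _ => h3 i) (Finset.mem_univ i1))
    have h6 : |sib0 p J (n + 1)| ≤ M := hJC
    exact not_lt.2 (h6.trans (h5.trans (le_abs_self _)))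
  have ex2 : ∀ J ∈ Bm ∩ C, W0 p n J (p n).1 < 0 → ¬ |own0 p J (n + 1)| < |sib0 p J (n + 1)| := by
    rintro J ⟨hJ, hJC⟩ h0
    have h3 : ∀ i, 0 ≤ -W0 p n J i := by
      intro i
      by_cases hi : i = (p n).1
      · rw [hi]; linarith
      · have := hJ i trivial
        simp only [sm, if_neg hi] at this
        split_ifs at this
        · simp only [mem_Iic] at this
          linarith
        · simp only [mem_Iic] at this
          linarith
    have h4 : M ≤ -W0 p n J i1 := by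
      have := hJ i1 trivial
      simp only [sm, if_neg hi1, if_true, mem_Iic] at this
      linarith
    have h5 : M ≤ -own0 p J (n + 1) := by
      rw [own0_succ, ← Finset.sum_neg_distrib]
      exact h4.trans (Finset.single_le_sum (f := fun i => -W0 p n J i) (fun i _ => h3 i)
        (Finset.mem_univ i1))
    have h6 : |sib0 p J (n + 1)| ≤ M := hJC
    exact not_lt.2 (h6.trans (h5.trans (neg_le_abs _)))
  let Bad : Set (EdgeInf b p → ℝ) := {J | |own0 p J (n + 1)| < |sib0 p J (n + 1)|}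
  let G1 : Set (EdgeInf b p → ℝ) := (A ∩ X) ∩ (Bp ∩ C)
  let G2 : Set (EdgeInf b p → ℝ) := (A \ X) ∩ (Bm ∩ C)
  have hG1 : MeasurableSet G1 := (hA.inter hX).inter (hBp.inter hC)
  have hG2 : MeasurableSet G2 := (hA.diff hX).inter (hBm.inter hC)
  have d1 : Disjoint (A ∩ Bad) G1 := by
    rw [Set.disjoint_left]
    rintro J ⟨-, hJ⟩ ⟨⟨-, hx⟩, hJ2⟩
    exact ex J hJ2 hx hJ
  have d2 : Disjoint (A ∩ Bad ∪ G1) G2 := by
    rw [Set.disjoint_left]
    rintro J (⟨-, hJ⟩ | ⟨⟨-, hx⟩, -⟩) ⟨⟨-, hx2⟩, hJ2⟩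
    · exact ex2 J hJ2 (lt_of_not_ge hx2) hJ
    · exact hx2 hx
  have v1 : Q G1 = Q (A ∩ X) * (Q Bp * Q C) :=
    prod3 _ _ (hA.inter hX) hBp (hA'.inter dX) dBp
  have v2 : Q G2 = Q (A \ X) * (Q Bm * Q C) :=
    prod3 _ _ (hA.diff hX) hBm (hA'.diff dX) dBm
  have v3 : Q A = Q (A ∩ X) + Q (A \ X) := (measure_inter_add_sdiff _ hX).symm
  calc Q (A ∩ Bad) + ((4 : ℝ≥0∞)⁻¹ ^ b * (4 : ℝ≥0∞)⁻¹ ^ b) * Q A
      = Q (A ∩ Bad) + (Q (A ∩ X) * ((4 : ℝ≥0∞)⁻¹ ^ b * (4 : ℝ≥0∞)⁻¹ ^ b)) +
        (Q (A \ X) * ((4 : ℝ≥0∞)⁻¹ ^ b * (4 : ℝ≥0∞)⁻¹ ^ b)) := by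
        rw [v3]
        ring
    _ ≤ Q (A ∩ Bad) + Q G1 + Q G2 := by
        rw [v1, v2]
        gcongr
    _ = Q (A ∩ Bad ∪ G1 ∪ G2) := by
        rw [measure_union d2 hG2, measure_union d1 hG1]
    _ ≤ Q A := by
        refine measure_mono ?_
        rintro J ((hJ | hJ) | hJ)
        · exact hJ.1
        · exact hJ.1.1
        · exact hJ.1.1

theorem ae_all (h2 : S_MARG) (hb : 2 ≤ b) (hs : μ.map (fun x => -x) = μ) :
    ∀ᵐ J ∂(Measure.infinitePi fun _ : EdgeInf b p => μ),
      ∀ k : ℕ, ∃ n, k ≤ n ∧ |sib0 p J n| ≤ |own0 p J n| := by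
  rw [ae_all_iff]
  intro k
  set Q := Measure.infinitePi fun _ : EdgeInf b p => μ with hQ
  let A : ℕ → Set (EdgeInf b p → ℝ) :=
    fun j => {J | ∀ m, k ≤ m → m ≤ k + j → |own0 p J m| < |sib0 p J m|}
  have hA : ∀ j, MeasurableSet (A j) := by
    intro j
    have e1 : A j = ⋂ m, ⋂ (_ : k ≤ m), ⋂ (_ : m ≤ k + j),
        {J : EdgeInf b p → ℝ | |own0 p J m| < |sib0 p J m|} := by
      ext J
      simp [A]
    rw [e1]
    refine MeasurableSet.iInter fun m => MeasurableSet.iInter fun _ => MeasurableSet.iInter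
      fun _ => ?_
    exact measurableSet_lt (meas_own0 p h2 m).abs (mp_sib0 μ p h2 m).measurable.abs
  have hA' : ∀ j, Dep (Past p (k + j)) (A j) := by
    intro j J J' h
    have e1 : ∀ m, m ≤ k + j → own0 p J m = own0 p J' m := by
      intro m hm
      unfold own0
      rw [cpl_congr h m hm]
    have e2 : ∀ m, m ≤ k + j → sib0 p J m = sib0 p J' m := by
      intro m hm
      unfold sib0
      rw [cpl_branch h m hm (!(p m).2)]
    change (∀ m, k ≤ m → m ≤ k + j → |own0 p J m| < |sib0 p J m|) ↔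
      ∀ m, k ≤ m → m ≤ k + j → |own0 p J' m| < |sib0 p J' m|
    refine forall_congr' fun m => imp_congr Iff.rfl ?_
    constructor
    · intro h3 h4
      rw [← e1 m h4, ← e2 m h4]
      exact h3 h4
    · intro h3 h4
      rw [e1 m h4, e2 m h4]
      exact h3 h4
  have hsucc : ∀ j, A (j + 1) =
      A j ∩ {J : EdgeInf b p → ℝ | |own0 p J (k + j + 1)| < |sib0 p J (k + j + 1)|} := by
    intro j
    ext J
    constructor
    · intro h
      exact ⟨fun m h3 h4 => h m h3 (by omega), h (k + j + 1) (by omega) (by omega)⟩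
    · rintro ⟨h3, h4⟩ m h5 h6
      rcases Nat.lt_or_ge m (k + j + 1) with h7 | h7
      · exact h3 m h5 (by omega)
      · have : m = k + j + 1 := by omega
        rw [this]
        exact h4
  let cE : ℝ≥0∞ := (4 : ℝ≥0∞)⁻¹ ^ b * (4 : ℝ≥0∞)⁻¹ ^ b
  have h4le : (4 : ℝ≥0∞)⁻¹ ≤ 1 := ENNReal.inv_le_one.2 (by norm_num)
  have hcE1 : cE ≤ 1 := mul_le_one' (pow_le_one' h4le b) (pow_le_one' h4le b)
  have hcEt : cE ≠ ⊤ := ne_top_of_le_ne_top ENNReal.one_ne_top hcE1
  have hcE0 : cE ≠ 0 := by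
    have h3 : (4 : ℝ≥0∞)⁻¹ ≠ 0 := ENNReal.inv_ne_zero.2 (by norm_num)
    exact mul_ne_zero (pow_ne_zero _ h3) (pow_ne_zero _ h3)
  let c : ℝ := cE.toReal
  have hc0 : 0 < c := ENNReal.toReal_pos hcE0 hcEt
  have hc1 : c ≤ 1 := by
    have := ENNReal.toReal_mono ENNReal.one_ne_top hcE1
    simpa using this
  have hst : ∀ j, Q.real (A (j + 1)) ≤ (1 - c) * Q.real (A j) := by
    intro j
    have h3 := step μ p h2 hb hs (k + j) (A j) (hA j) (hA' j)
    rw [← hQ, ← hsucc j] at h3
    have h4 := ENNReal.toReal_mono (measure_ne_top _ _) h3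
    rw [ENNReal.toReal_add (measure_ne_top _ _) (ENNReal.mul_ne_top hcEt (measure_ne_top _ _)),
      ENNReal.toReal_mul] at h4
    change Q.real (A (j + 1)) + c * Q.real (A j) ≤ Q.real (A j) at h4
    linarith
  have hle : ∀ j, Q.real (A j) ≤ (1 - c) ^ j := by
    intro j
    induction j with
    | zero =>
      rw [pow_zero]
      exact measureReal_le_one
    | succ j ih =>
      calc Q.real (A (j + 1)) ≤ (1 - c) * Q.real (A j) := hst j
        _ ≤ (1 - c) * (1 - c) ^ j := mul_le_mul_of_nonneg_left ih (by linarith)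
        _ = (1 - c) ^ (j + 1) := by rw [pow_succ']
  have hnull : Q.real {J : EdgeInf b p → ℝ | ¬ ∃ n, k ≤ n ∧ |sib0 p J n| ≤ |own0 p J n|} = 0 := by
    refine le_antisymm ?_ measureReal_nonneg
    have hlim : Tendsto (fun j : ℕ => (1 - c) ^ j) atTop (𝓝 0) :=
      tendsto_pow_atTop_nhds_zero_of_lt_one (by linarith) (by linarith)
    refine ge_of_tendsto' hlim fun j => ?_
    refine le_trans (measureReal_mono ?_) (hle j)
    intro J hJ m h3 h4
    by_contra h5
    exact hJ ⟨m, h3, not_lt.1 h5⟩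
  rw [ae_iff]
  exact (measureReal_eq_zero_iff (measure_ne_top _ _)).1 hnull

end step

/-- Infinitely often `H n` has a larger coupling than the other half of its branch. -/
theorem t_IO0 (h1 : Pool.Agent.N988.EA.S_MARG) (h2 : Pool.Agent.N988.EZ.S_AT) :
    Pool.Agent.N988.EZ.S_IO0 := by
  intro b hb μ _ ha hs p
  have h3 : ∀ᵐ J ∂(Measure.infinitePi fun _ : EdgeInf b p => μ),
      ∀ n : ℕ, |sib0 p J n| ≠ |own0 p J n| := by
    rw [ae_all_iff]
    intro n
    refine no_tie μ p h1 n fun x => ?_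
    have h4 := (h2 b (by omega) μ ha n).2.1 x
    rw [(mp_K0 μ b n).map_eq] at h4
    exact h4
  filter_upwards [h3, ae_all μ p h1 hb hs] with J k1 k2 k
  obtain ⟨n, hn, hn2⟩ := k2 k
  exact ⟨n, hn, lt_of_le_of_ne hn2 (k1 n)⟩

end Pool.Agent.N700.EZ
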