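import Mathlib
import Pool.Agent.N587.IC.Stm

/-!
# Project IC (helper587), FU (helper700): a relation true along coordinate lines holds almost
everywhere
-/

set_option autoImplicit false

namespace Pool.Agent.N700.IC

open Set MeasureTheory

section

variable {n : ℕ} (μ : Fin n → Measure ℂ) [∀ i, IsProbabilityMeasure (μ i)]

/-- resampling of one coordinate -/
theorem resample (J : Fin n) : MeasurePreserving
    (fun p : (Fin n → ℂ) × ℂ => Function.update p.1 J p.2) ((Measure.pi μ).prod (μ J))
    (Measure.pi μ) := by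
  have hm : Measurable (fun p : (Fin n → ℂ) × ℂ => Function.update p.1 J p.2) := by
    rw [measurable_pi_iff]
    intro i
    by_cases h : i = J
    · subst h
      simpa using measurable_snd
    · simp only [Function.update_of_ne h]
      exact (measurable_pi_apply i).comp measurable_fst
  refine ⟨hm, ?_⟩
  symm
  refine Measure.pi_eq fun s hs => ?_
  rw [Measure.map_apply hm (MeasurableSet.univ_pi hs)]
  have e : (fun p : (Fin n → ℂ) × ℂ => Function.update p.1 J p.2) ⁻¹' (univ.pi s) =
      (univ.pi (Function.update s J univ)) ×ˢ (s J) := by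
    ext p
    simp only [mem_preimage, mem_pi, mem_univ, forall_true_left, mem_prod]
    constructor
    · intro h
      refine ⟨fun i => ?_, by simpa using h J⟩
      by_cases hi : i = J
      · subst hi
        simp
      · rw [Function.update_of_ne hi]
        have := h i
        rwa [Function.update_of_ne hi] at this
    · rintro ⟨h1, h2⟩ i
      by_cases hi : i = J
      · subst hi
        simpa using h2
      · rw [Function.update_of_ne hi]
        have := h1 i
        rwa [Function.update_of_ne hi] at this
  rw [e, Measure.prod_prod, Measure.pi_pi]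
  have e2 : (fun i => μ i (Function.update s J univ i)) =
      Function.update (fun i => μ i (s i)) J 1 := by
    funext i
    by_cases hi : i = J
    · subst hi
      simp
    · rw [Function.update_of_ne hi, Function.update_of_ne hi]
  rw [e2, Finset.prod_update_of_mem (Finset.mem_univ J), one_mul,
    ← Finset.prod_sdiff (Finset.subset_univ {J}), Finset.prod_singleton]

/-- a rearrangement of four factors -/
theorem rearr {X : Type} [MeasurableSpace X] (π : Measure X) (ν : Measure ℂ)
    [IsProbabilityMeasure π] [IsProbabilityMeasure ν] : MeasurePreserving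
    (fun p : (X × X) × (ℂ × ℂ) => ((p.1.1, p.2.1), (p.1.2, p.2.2)))
    ((π.prod π).prod (ν.prod ν)) ((π.prod ν).prod (π.prod ν)) := by
  have h1 : MeasurePreserving (MeasurableEquiv.prodAssoc : (X × X) × (ℂ × ℂ) ≃ᵐ X × X × (ℂ × ℂ))
      ((π.prod π).prod (ν.prod ν)) (π.prod (π.prod (ν.prod ν))) :=
    measurePreserving_prodAssoc π π (ν.prod ν)
  have h2 : MeasurePreserving (MeasurableEquiv.prodAssoc : (X × ℂ) × ℂ ≃ᵐ X × ℂ × ℂ).symm
      (π.prod (ν.prod ν)) ((π.prod ν).prod ν) := (measurePreserving_prodAssoc π ν ν).symm _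
  have h3 : MeasurePreserving (Prod.map (Prod.swap : X × ℂ → ℂ × X) (id : ℂ → ℂ))
      ((π.prod ν).prod ν) ((ν.prod π).prod ν) :=
    Measure.measurePreserving_swap.prod (MeasurePreserving.id ν)
  have h4 : MeasurePreserving (MeasurableEquiv.prodAssoc : (ℂ × X) × ℂ ≃ᵐ ℂ × X × ℂ)
      ((ν.prod π).prod ν) (ν.prod (π.prod ν)) := measurePreserving_prodAssoc ν π ν
  have h5 := (MeasurePreserving.id π).prod (h4.comp (h3.comp h2))
  have h6 : MeasurePreserving (MeasurableEquiv.prodAssoc : (X × ℂ) × (X × ℂ) ≃ᵐ X × ℂ × (X × ℂ)).symm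
      (π.prod (ν.prod (π.prod ν))) ((π.prod ν).prod (π.prod ν)) :=
    (measurePreserving_prodAssoc π ν (π.prod ν)).symm _
  exact h6.comp (h5.comp h1)

/-- coordinates of `y` before `j`, of `x` from `j` on -/
def mix (j : ℕ) (p : (Fin n → ℂ) × (Fin n → ℂ)) (i : Fin n) : ℂ := if i.val < j then p.2 i else p.1 i

theorem mix_meas (j : ℕ) : Measurable (mix (n := n) j) := by
  rw [measurable_pi_iff]
  intro i
  unfold mix
  by_cases h : i.val < j
  · simp only [if_pos h]
    exact (measurable_pi_apply i).comp measurable_snd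
  · simp only [if_neg h]
    exact (measurable_pi_apply i).comp measurable_fst

theorem mix_upd (J : Fin n) (x y : Fin n → ℂ) (u v : ℂ) :
    mix J.val (Function.update x J u, Function.update y J v) =
      Function.update (mix J.val (x, y)) J u := by
  funext i
  unfold mix
  by_cases h : i = J
  · subst h
    simp
  · simp [Function.update_of_ne h]

theorem mix_upd' (J : Fin n) (x y : Fin n → ℂ) (u v : ℂ) :
    mix (J.val + 1) (Function.update x J u, Function.update y J v) =
      Function.update (mix J.val (x, y)) J v := by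
  funext i
  unfold mix
  by_cases h : i = J
  · subst h
    simp
  · have h2 : i.val ≠ J.val := fun h3 => h (Fin.ext h3)
    simp only [Function.update_of_ne h]
    by_cases h3 : i.val < J.val
    · rw [if_pos h3, if_pos (by omega)]
    · rw [if_neg h3, if_neg (by omega)]

theorem step (hna : ∀ i x, μ i {x} = 0) (E : (Fin n → ℂ) → (Fin n → ℂ) → Prop)
    (hE : ∀ (ρ : Measure ((Fin n → ℂ) × (Fin n → ℂ))) [IsFiniteMeasure ρ],
      NullMeasurableSet {p : (Fin n → ℂ) × (Fin n → ℂ) | E p.1 p.2} ρ)
    (hB : ∀ (i : Fin n) (x : Fin n → ℂ), ∃ B : Set ℂ, B.Countable ∧ ∀ z ∉ B, ∀ z' ∉ B,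
      E (Function.update x i z) (Function.update x i z')) (J : Fin n) :
    ∀ᵐ p ∂((Measure.pi μ).prod (Measure.pi μ)), E (mix J.val p) (mix (J.val + 1) p) := by
  have hm : Measurable (fun p : (Fin n → ℂ) × (Fin n → ℂ) => (mix J.val p, mix (J.val + 1) p)) :=
    (mix_meas _).prodMk (mix_meas _)
  have hT : NullMeasurableSet {p : (Fin n → ℂ) × (Fin n → ℂ) | ¬ E (mix J.val p) (mix (J.val + 1) p)}
      ((Measure.pi μ).prod (Measure.pi μ)) := by
    have h1 := hE (((Measure.pi μ).prod (Measure.pi μ)).map
      (fun p : (Fin n → ℂ) × (Fin n → ℂ) => (mix J.val p, mix (J.val + 1) p)))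
    exact (h1.preimage (hm.quasiMeasurePreserving _)).compl
  have hV := ((resample μ J).prod (resample μ J)).comp (rearr (Measure.pi μ) (μ J))
  rw [ae_iff, ← hV.measure_preimage hT]
  have hT2 := hT.preimage hV.quasiMeasurePreserving
  obtain ⟨Z, hZ1, hZ2, hZ3⟩ := hT2.exists_measurable_subset_ae_eq
  rw [← measure_congr hZ3]
  refine Measure.measure_prod_null_of_ae_null hZ2 (Filter.Eventually.of_forall fun p => ?_)
  obtain ⟨B, hBc, hB2⟩ := hB J (mix J.val p)
  have _inst : NullSingletonClass (μ J) := ⟨fun x => hna J x⟩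
  have hB0 : μ J B = 0 := hBc.measure_zero _
  refine measure_mono_null (t := B ×ˢ univ ∪ univ ×ˢ B) ?_ ?_
  · intro q hq
    have h1 := hZ1 hq
    by_contra hcon
    rw [mem_union, mem_prod, mem_prod] at hcon
    push Not at hcon
    refine h1 ?_
    show E (mix J.val (Function.update p.1 J q.1, Function.update p.2 J q.2))
      (mix (J.val + 1) (Function.update p.1 J q.1, Function.update p.2 J q.2))
    rw [mix_upd, mix_upd']
    exact hB2 _ (fun h => hcon.1 h (mem_univ _)) _ (fun h => hcon.2 (mem_univ _) h)
  · rw [measure_union_null_iff, Measure.prod_prod, Measure.prod_prod, hB0]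
    simp

end

theorem t_FU : Pool.Agent.N587.IC.S_FU := by
  intro n μ _ hna E hr ht hE hB
  have h1 : ∀ j : ℕ, j ≤ n → ∀ᵐ p ∂((Measure.pi μ).prod (Measure.pi μ)), E p.1 (mix j p) := by
    intro j
    induction j with
    | zero =>
      intro _
      refine Filter.Eventually.of_forall fun p => ?_
      have : mix 0 p = p.1 := by
        funext i
        simp [mix]
      rw [this]
      exact hr _
    | succ j ih =>
      intro hj
      filter_upwards [ih (by omega), step μ hna E hE hB ⟨j, by omega⟩] with p h2 h3
      exact ht _ _ _ h2 h3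
  have h2 : ∀ᵐ p ∂((Measure.pi μ).prod (Measure.pi μ)), E p.1 p.2 := by
    filter_upwards [h1 n le_rfl] with p h3
    have : mix n p = p.2 := by
      funext i
      simp [mix]
    rwa [this] at h3
  refine ⟨h2, ?_⟩
  exact (Measure.ae_ae_of_ae_prod h2).exists

end Pool.Agent.N700.IC
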