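import Mathlib
import Pool.Agent.N604.MW.Stm4

/-!
# Project KV: the characteristic function of the Gaussian measure
-/

set_option autoImplicit false

namespace Pool.Agent.N700.KVChar

open Finset MeasureTheory Pool.Agent.N604.MW

theorem charT : S_CHAR := by
  intro k t
  have h1 : ∀ θ : Fin k → ℝ, e (∑ l, θ l * t l) =
      ∏ l : Fin k, Complex.exp (((2 * Real.pi * t l : ℝ) : ℂ) * ((θ l : ℝ) : ℂ) * Complex.I) := by
    intro θ
    unfold e
    rw [← Complex.exp_sum]
    congr 1
    push_cast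
    rw [Finset.mul_sum, Finset.sum_mul]
    refine Finset.sum_congr rfl fun l _ => ?_
    ring
  have h2 : ∀ s : ℝ, ∫ x, Complex.exp (((s : ℝ) : ℂ) * ((x : ℝ) : ℂ) * Complex.I)
      ∂(ProbabilityTheory.gaussianReal 0 1) = Complex.exp (-(s : ℂ) ^ 2 / 2) := by
    intro s
    have := ProbabilityTheory.charFun_gaussianReal (μ := 0) (v := 1) s
    rw [MeasureTheory.charFun_apply_real] at this
    rw [this]
    congr 1
    push_cast
    ring
  simp_rw [h1]
  unfold GM
  rw [MeasureTheory.integral_fintype_prod_eq_prod (𝕜 := ℂ)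
    (fun (l : Fin k) (x : ℝ) => Complex.exp (((2 * Real.pi * t l : ℝ) : ℂ) * ((x : ℝ) : ℂ) * Complex.I))]
  simp_rw [h2]
  rw [← Complex.exp_sum]
  rw [Complex.ofReal_exp]
  congr 1
  push_cast
  rw [Finset.mul_sum, ← Finset.sum_neg_distrib]
  refine Finset.sum_congr rfl fun l _ => ?_
  ring

end Pool.Agent.N700.KVChar
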