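import Pool.Agent.N604.MW.Stm12
import Pool.Agent.N853.KV_AC

/-!
# Project AK (helper604), KHOL, KSH, KAE (helper700; KHOL after the leaf AHOL of helper37)
-/

set_option autoImplicit false

namespace Pool.Agent.N700.AK

open Finset MeasureTheory Filter Pool.Agent.N604.MW

theorem amgm {n : ℕ} (hn : n ≠ 0) (f : Fin n → ℝ) (hf : ∀ j, 0 ≤ f j) :
    ∏ j, f j ≤ ∑ j, (n : ℝ)⁻¹ * f j ^ n := by
  have hn' : (n : ℝ) ≠ 0 := Nat.cast_ne_zero.2 hn
  have h := Real.geom_mean_le_arith_mean_weighted univ (fun _ : Fin n => (n : ℝ)⁻¹)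
    (fun j => f j ^ n) (fun _ _ => by positivity)
    (by rw [Finset.sum_const, Finset.card_univ, Fintype.card_fin, nsmul_eq_mul,
      mul_inv_cancel₀ hn'])
    (fun j _ => pow_nonneg (hf j) n)
  refine le_trans (le_of_eq ?_) h
  refine Finset.prod_congr rfl fun j _ => ?_
  rw [Real.pow_rpow_inv_natCast (hf j) hn]

theorem qq_meas : Measurable qq := by
  unfold qq
  refine Measurable.ite ?_ measurable_const (by fun_prop)
  exact measurableSet_le (by fun_prop) measurable_const

theorem qq_nonneg (x : ℝ) : 0 ≤ qq x := by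
  unfold qq; split_ifs <;> positivity

theorem GS_nonneg (n k X : ℕ) (γ : Fin n → ℝ) : 0 ≤ GS n k X γ := by
  unfold GS
  exact Finset.sum_nonneg fun _ _ => (Real.exp_pos _).le

theorem GS_meas (n k X : ℕ) : Measurable (fun γ : Fin n → ℝ => GS n k X γ) := by
  unfold GS
  fun_prop

theorem khol : S_KHOL := by
  intro s n k a S B hs hS h
  have hs0 : s ≠ 0 := by omega
  have hQ : Measurable fun γ : Fin n → ℝ => ∏ j, qq (γ j) :=
    Finset.measurable_fun_prod _ fun j _ => qq_meas.comp (measurable_pi_apply j)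
  have hQ0 : ∀ γ : Fin n → ℝ, 0 ≤ ∏ j, qq (γ j) := fun γ =>
    Finset.prod_nonneg fun j _ => qq_nonneg _
  let F : Fin s → (Fin n → ℝ) → ENNReal := fun i => S.indicator
    (fun γ => ENNReal.ofReal ((∏ j, qq (γ j)) * GS n k (XB (a i)) γ ^ s))
  have hF : ∀ i, Measurable (F i) := fun i =>
    (ENNReal.measurable_ofReal.comp (hQ.mul ((GS_meas n k (XB (a i))).pow_const s))).indicator hS
  have h1 : ∀ γ, S.indicator (fun γ => ENNReal.ofReal ((∏ j, qq (γ j)) *
      ∏ i, GS n k (XB (a i)) γ)) γ ≤ ∑ i, ENNReal.ofReal ((s : ℝ)⁻¹) * F i γ := by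
    intro γ
    by_cases hγ : γ ∈ S
    · have h2 : ∀ i, F i γ = ENNReal.ofReal ((∏ j, qq (γ j)) * GS n k (XB (a i)) γ ^ s) :=
        fun i => Set.indicator_of_mem hγ _
      rw [Set.indicator_of_mem hγ]
      simp only [h2]
      have h3 : ∀ i : Fin s, ENNReal.ofReal ((s : ℝ)⁻¹) *
          ENNReal.ofReal ((∏ j, qq (γ j)) * GS n k (XB (a i)) γ ^ s) =
          ENNReal.ofReal ((∏ j, qq (γ j)) * ((s : ℝ)⁻¹ * GS n k (XB (a i)) γ ^ s)) := by
        intro i
        rw [← ENNReal.ofReal_mul (by positivity)]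
        congr 1
        ring
      simp only [h3]
      rw [← ENNReal.ofReal_sum_of_nonneg]
      · apply ENNReal.ofReal_le_ofReal
        rw [← Finset.mul_sum]
        exact mul_le_mul_of_nonneg_left (amgm hs0 _ fun i => GS_nonneg _ _ _ _) (hQ0 γ)
      · intro i _
        have := GS_nonneg n k (XB (a i)) γ
        have := hQ0 γ
        positivity
    · rw [Set.indicator_of_notMem hγ]
      exact zero_le
  refine (lintegral_mono h1).trans ?_
  rw [lintegral_finsetSum _ fun i _ => (hF i).const_mul _]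
  have h2 : ∀ i ∈ (univ : Finset (Fin s)), ∫⁻ γ, ENNReal.ofReal ((s : ℝ)⁻¹) * F i γ ≤
      ENNReal.ofReal ((s : ℝ)⁻¹) * B := by
    intro i _
    rw [lintegral_const_mul _ (hF i)]
    exact mul_le_mul_right (h i) _
  refine (Finset.sum_le_sum h2).trans (le_of_eq ?_)
  rw [Finset.sum_const, Finset.card_univ, Fintype.card_fin, nsmul_eq_mul, ← mul_assoc]
  have h3 : (s : ENNReal) * ENNReal.ofReal ((s : ℝ)⁻¹) = 1 := by
    rw [← ENNReal.ofReal_natCast, ← ENNReal.ofReal_mul (Nat.cast_nonneg s),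
      mul_inv_cancel₀ (Nat.cast_ne_zero.2 hs0), ENNReal.ofReal_one]
  rw [h3, one_mul]

theorem NF_shift {s : ℕ} (b : ℕ) (f : Fin s → ℤ → ℝ) (y Δ : ℝ) :
    NF (fun i x => f i x + b) (y + s * b) Δ = NF f y Δ := by
  unfold NF
  congr 1
  ext x
  have h : ∑ i, (f i (x i) + (b : ℝ)) = (∑ i, f i (x i)) + s * b := by
    rw [Finset.sum_add_distrib, Finset.sum_const, Finset.card_univ, Fintype.card_fin, nsmul_eq_mul]
  simp only [Set.mem_ofPred_eq]
  rw [h]
  constructor
  · rintro ⟨h1, h2⟩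
    exact ⟨by linarith, by linarith⟩
  · rintro ⟨h1, h2⟩
    exact ⟨by linarith, by linarith⟩

theorem ksh : S_KSH := by
  intro s b f c κ Δ h
  have hC : (0 : ℝ) ≤ s * b := by positivity
  have h1 : Tendsto (fun y : ℝ => y + (s * b : ℝ)) atTop atTop :=
    tendsto_atTop_add_const_right _ _ tendsto_id
  have h2 := h.comp h1
  have h3 : Tendsto (fun y : ℝ => (y + (s * b : ℝ)) / y) atTop (nhds 1) := by
    have h4 : Tendsto (fun y : ℝ => 1 + (s * b : ℝ) / y) atTop (nhds (1 + 0)) :=
      tendsto_const_nhds.add (tendsto_const_nhds.div_atTop tendsto_id)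
    rw [add_zero] at h4
    refine h4.congr' ?_
    filter_upwards [eventually_gt_atTop 0] with y hy
    rw [add_div, div_self hy.ne']
  have h4 : Tendsto (fun y : ℝ => ((y + (s * b : ℝ)) / y) ^ κ) atTop (nhds 1) := by
    have h5 := (Real.continuousAt_rpow_const 1 κ (Or.inl one_ne_zero)).tendsto.comp h3
    rwa [Real.one_rpow] at h5
  have h5 := h2.mul h4
  rw [mul_one] at h5
  refine h5.congr' ?_
  filter_upwards [eventually_gt_atTop 0] with y hy
  have hy2 : 0 < y + (s * b : ℝ) := by linarith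
  have e1 := Real.rpow_pos_of_pos hy κ
  have e2 := Real.rpow_pos_of_pos hy2 κ
  simp only [Function.comp_apply]
  rw [NF_shift, Real.div_rpow hy2.le hy.le]
  field_simp

theorem kae : S_KAE := by
  intro s d P hP
  rw [ae_all_iff]
  intro q
  by_cases hq : 1 ≤ q
  · have hq' : (q : ℝ) ≠ 0 := by
      have : (0 : ℝ) < q := by exact_mod_cast hq
      exact this.ne'
    have h := (Measure.quasiMeasurePreserving_smul
      (μ := (volume : Measure (Fin s → Fin d → ℝ))) hq').ae
        (Pool.Agent.N853.KV.ac s d (P q) (hP q hq))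
    filter_upwards [h] with α hα _
    exact hα
  · filter_upwards with α h
    exact absurd h hq

end Pool.Agent.N700.AK
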