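import Pool.Agent.N646.RG.Stm

/-!
Project RG (helper646), E12: the second moment over all configurations (helper700).
Adapted from `Pool/Agent/N769/RQ_E1.lean`.
-/

set_option autoImplicit false

namespace Pool.Agent.N700.RG_E12

open Finset Filter Topology Pool.Agent.N646.RG
open Pool.Agent.N646.RO (Rgh S_BB)

open Classical in
/-- exchange of the sums -/
theorem exchange {ι : Type} [Fintype ι] [DecidableEq ι] (T₁ : ℕ) (I : Finset ℕ)
    (R : ι → ℕ → ℕ → Prop) (b : ℕ → ℝ) :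
    ∑ H ∈ Fintype.piFinset (fun _ : ι => range T₁),
      ∑ n ∈ I.filter (fun n : ℕ => ∀ x, R x n (H x)), b n =
    ∑ n ∈ I, (∏ x, (((range T₁).filter (fun t => R x n t)).card : ℝ)) * b n := by
  simp only [sum_filter]
  rw [sum_comm]
  refine sum_congr rfl fun n _ => ?_
  rw [← sum_filter, sum_const, nsmul_eq_mul]
  congr 1
  have h1 : (Fintype.piFinset (fun _ : ι => range T₁)).filter (fun H => ∀ x, R x n (H x)) =
      Fintype.piFinset (fun x : ι => (range T₁).filter (fun t => R x n t)) := by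
    ext H
    simp only [mem_filter, Fintype.mem_piFinset, mem_range]
    constructor
    · rintro ⟨h, h'⟩ x
      exact ⟨h x, h' x⟩
    · intro h
      exact ⟨fun x => (h x).1, fun x => (h x).2⟩
  rw [h1, Fintype.card_piFinset]
  push_cast
  rfl

/-- a product is at most the sum of the powers -/
theorem prod_le {ι : Type} [Fintype ι] [Nonempty ι] (A : ι → ℝ) (hA : ∀ x, 0 ≤ A x) :
    ∏ x, A x ≤ ∑ x, A x ^ Fintype.card ι := by
  obtain ⟨x0, -, hx⟩ := Finset.exists_max_image (univ : Finset ι) A univ_nonempty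
  calc ∏ x, A x ≤ ∏ _x : ι, A x0 := Finset.prod_le_prod (fun x _ => hA x) fun x hx' => hx x hx'
    _ = A x0 ^ Fintype.card ι := by rw [prod_const, card_univ]
    _ ≤ ∑ x, A x ^ Fintype.card ι :=
      Finset.single_le_sum (f := fun x => A x ^ Fintype.card ι)
        (fun x _ => pow_nonneg (hA x) _) (mem_univ x0)

theorem main (hW : Pool.Agent.N646.RG.S_WB2) (hB : Pool.Agent.N646.RO.S_BB) :
    Pool.Agent.N646.RG.S_E12 := by
  classical
  intro T K s M₀ δ lam hT hK hδ hlam hM₀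
  obtain ⟨CW, hCW, h1⟩ := hW δ lam M₀ (2 * (T * K)) hδ hlam hM₀
  obtain ⟨CB, hCB, h2⟩ := hB δ s 4 hδ
  have hT0 : (0 : ℝ) < T := by exact_mod_cast (by omega : 0 < T)
  have hK0 : (0 : ℝ) < K := by exact_mod_cast (by omega : 0 < K)
  refine ⟨T * K * Real.sqrt (CW * CB), mul_pos (mul_pos hT0 hK0)
    (Real.sqrt_pos.2 (mul_pos hCW hCB)), ?_⟩
  filter_upwards [h1, h2, eventually_ge_atTop 2] with N h1 h2 hN T₁ hT1 hT2 f hf
  have hlog : 0 < Real.log N := Real.log_pos (by exact_mod_cast (by omega : 1 < N))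
  have hne : Nonempty (Fin T × Fin K) := ⟨(⟨0, by omega⟩, ⟨0, by omega⟩)⟩
  have hcard : Fintype.card (Fin T × Fin K) = T * K := by
    rw [Fintype.card_prod, Fintype.card_fin, Fintype.card_fin]
  obtain ⟨b, hb⟩ : ∃ b : ℕ → ℝ, b = fun n : ℕ => (((range (⌊Real.log N⌋₊ + s + 1)).filter
      (fun j : ℕ => Rgh δ N (n - j))).card : ℝ) ^ 2 := ⟨_, rfl⟩
  have hb0 : ∀ n, 0 ≤ b n := fun n => by rw [hb]; positivity
  obtain ⟨A, hA⟩ : ∃ A : Fin T × Fin K → ℕ → ℝ, A = fun x n => (((range T₁).filter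
      (fun t : ℕ => Rgh δ N (ev (sh (f x) (M₀ * t)) n))).card : ℝ) := ⟨_, rfl⟩
  have hA0 : ∀ x n, 0 ≤ A x n := fun x n => by rw [hA]; positivity
  have hex := exchange (ι := Fin T × Fin K) T₁ (IN N)
    (fun x n t => Rgh δ N (ev (sh (f x) (M₀ * t)) n)) b
  have hb4 : ∑ n ∈ IN N, b n ^ 2 ≤ CB * N := by
    refine le_trans ?_ h2
    have h3 : IN N ⊆ Icc (N / 18) (2 * N) := by
      intro n hn
      unfold IN at hn
      rw [mem_Icc] at hn ⊢
      omega
    refine le_trans (Finset.sum_le_sum_of_subset_of_nonneg h3 fun n _ _ => sq_nonneg _)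
      (le_of_eq ?_)
    refine sum_congr rfl fun n _ => ?_
    rw [hb]
    show ((_ : ℝ) ^ 2) ^ 2 = _
    rw [← pow_mul]
  have hAx : ∀ x, ∑ n ∈ IN N, (A x n ^ (T * K)) ^ 2 ≤
      CW * N * (T₁ / Real.log N) ^ (2 * (T * K)) := by
    intro x
    refine le_trans (le_of_eq ?_) (h1 T₁ hT1 hT2 (f x) (hf x))
    refine sum_congr rfl fun n _ => ?_
    rw [hA, ← pow_mul, mul_comm (T * K) 2]
  have hCS : ∀ x, ∑ n ∈ IN N, A x n ^ (T * K) * b n ≤
      Real.sqrt (CW * CB) * N * (T₁ / Real.log N) ^ (T * K) := by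
    intro x
    obtain ⟨L, hL⟩ : ∃ L, L = ∑ n ∈ IN N, A x n ^ (T * K) * b n := ⟨_, rfl⟩
    have h3 := sum_mul_sq_le_sq_mul_sq (IN N) (fun n => A x n ^ (T * K)) b
    rw [← hL] at h3 ⊢
    have hL0 : 0 ≤ L := by
      rw [hL]
      exact sum_nonneg fun n _ => mul_nonneg (pow_nonneg (hA0 x n) _) (hb0 n)
    have h5 : L ^ 2 ≤ (CW * N * (T₁ / Real.log N) ^ (2 * (T * K))) * (CB * N) :=
      h3.trans (mul_le_mul (hAx x) hb4 (sum_nonneg fun n _ => sq_nonneg _) (by positivity))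
    have h6 : (Real.sqrt (CW * CB) * N * (T₁ / Real.log N) ^ (T * K)) ^ 2 =
        (CW * N * (T₁ / Real.log N) ^ (2 * (T * K))) * (CB * N) := by
      rw [mul_pow, mul_pow, Real.sq_sqrt (mul_pos hCW hCB).le, ← pow_mul, mul_comm (T * K) 2]
      ring
    rw [← h6] at h5
    exact (pow_le_pow_iff_left₀ hL0 (by positivity) two_ne_zero).1 h5
  have hfin : ∑ n ∈ IN N, (∏ x, A x n) * b n ≤
      T * K * Real.sqrt (CW * CB) * N * (T₁ / Real.log N) ^ (T * K) := by
    calc ∑ n ∈ IN N, (∏ x, A x n) * b n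
        ≤ ∑ n ∈ IN N, (∑ x, A x n ^ (T * K)) * b n := by
          refine sum_le_sum fun n _ => mul_le_mul_of_nonneg_right ?_ (hb0 n)
          have := prod_le (fun x => A x n) (fun x => hA0 x n)
          rwa [hcard] at this
      _ = ∑ x, ∑ n ∈ IN N, A x n ^ (T * K) * b n := by
          rw [sum_comm]
          refine sum_congr rfl fun n _ => ?_
          rw [sum_mul]
      _ ≤ ∑ _x : Fin T × Fin K, Real.sqrt (CW * CB) * N * (T₁ / Real.log N) ^ (T * K) :=
          sum_le_sum fun x _ => hCS x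
      _ = T * K * Real.sqrt (CW * CB) * N * (T₁ / Real.log N) ^ (T * K) := by
          rw [sum_const, card_univ, hcard, nsmul_eq_mul]
          push_cast
          ring
  have e1 : ∑ n ∈ IN N, (∏ x, A x n) * b n = ∑ n ∈ IN N, (∏ x, (((range T₁).filter
      (fun t => Rgh δ N (ev (sh (f x) (M₀ * t)) n))).card : ℝ)) * b n := by
    rw [hA]
  rw [e1, ← hex, hb] at hfin
  convert hfin using 4

end Pool.Agent.N700.RG_E12
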