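import Pool.Agent.N804.GM.Stm
import Pool.Agent.N27.GM_3

/-!
# Project GM (helper804), part 4 (helper700): zeros of zeta against the horizontal means
-/

set_option autoImplicit false

namespace Pool.Agent.N700.GM4

open Complex Filter Topology Set MeasureTheory
open Pool.Agent.N804.GM Pool.Agent.N27.GM3

/-! ### A lower bound in the half-plane `3/2 ≤ Re s` -/

theorem zeta_low' : ∃ c : ℝ, 0 < c ∧ ∀ s : ℂ, 3 / 2 ≤ s.re → c ≤ ‖riemannZeta s‖ := by
  set m : ℕ → ℂ := fun n => ((ArithmeticFunction.moebius n : ℤ) : ℂ) with hm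
  set M : ℝ := ∑' n, ‖LSeries.term m (3 / 2) n‖ with hM
  have hre0 : (3 / 2 : ℂ).re = 3 / 2 := by norm_num
  have h0 : LSeriesSummable m (3 / 2) :=
    ArithmeticFunction.LSeriesSummable_moebius_iff.2 (by rw [hre0]; norm_num)
  have h1 : ∀ s : ℂ, 3 / 2 ≤ s.re → ‖LSeries m s‖ ≤ M := by
    intro s hs
    have h2 : LSeriesSummable m s :=
      ArithmeticFunction.LSeriesSummable_moebius_iff.2 (by linarith)
    calc ‖LSeries m s‖ ≤ ∑' n, ‖LSeries.term m s n‖ :=
          norm_tsum_le_tsum_norm h2.norm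
      _ ≤ M := h2.norm.tsum_le_tsum
          (fun n => LSeries.norm_term_le_of_re_le_re m (by rw [hre0]; exact hs) n) h0.norm
  have h4 : ∀ s : ℂ, 3 / 2 ≤ s.re → ‖riemannZeta s‖ * ‖LSeries m s‖ = 1 := by
    intro s hs
    have h5 : (1 : ℝ) < s.re := by linarith
    have h6 := LSeries_one_mul_Lseries_moebius h5
    rw [LSeries_one_eq_riemannZeta h5] at h6
    rw [← norm_mul]
    have h7 : riemannZeta s * LSeries m s = 1 := h6
    rw [h7, norm_one]
  have hM0 : 0 < M := by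
    have h5 := h4 (3 / 2) (by rw [hre0])
    have h6 := h1 (3 / 2) (by rw [hre0])
    by_contra h7
    have h8 : ‖LSeries m (3 / 2)‖ = 0 :=
      le_antisymm (h6.trans (not_lt.1 h7)) (norm_nonneg _)
    rw [h8, mul_zero] at h5
    exact zero_ne_one h5
  refine ⟨1 / M, by positivity, fun s hs => ?_⟩
  rw [div_le_iff₀ hM0]
  calc (1 : ℝ) = ‖riemannZeta s‖ * ‖LSeries m s‖ := (h4 s hs).symm
    _ ≤ ‖riemannZeta s‖ * M := mul_le_mul_of_nonneg_left (h1 s hs) (norm_nonneg _)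

/-! ### The function in the half-plane -/

/-- the function `ζ(s) (s - 1) / (s + 1)`, `s = σ + it + z` -/
noncomputable def gg (σ t : ℝ) (z : ℂ) : ℂ := H (z + (σ + t * I)) / (z + (σ + t * I) + 1)

theorem den_ne' {σ t : ℝ} (hσ : 0 ≤ σ) {z : ℂ} (hz : 0 ≤ z.re) : z + (σ + t * I) + 1 ≠ 0 := by
  intro h
  have h1 := congrArg Complex.re h
  simp at h1
  linarith

theorem gg_an {σ : ℝ} (hσ : 0 ≤ σ) (t : ℝ) {z : ℂ} (hz : 0 ≤ z.re) :
    AnalyticAt ℂ (gg σ t) z := by
  unfold gg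
  refine AnalyticAt.div ?_ ?_ (den_ne' hσ hz)
  · exact (H_an _).fun_comp (by fun_prop)
  · fun_prop

theorem gg_le0 {σ t : ℝ} (hσ : 1 / 2 ≤ σ) (hσ1 : σ ≤ 1) (ht : 4 ≤ t) {z : ℂ} (hz : 0 ≤ z.re) :
    ‖gg σ t z‖ ≤ 2 + 2 * t + 2 * ‖z‖ := by
  set s : ℂ := z + (σ + t * I) with hs
  have hsre : s.re = z.re + σ := by simp [hs]
  have hs0 : (1 : ℝ) / 2 ≤ s.re := by rw [hsre]; linarith
  have hden : 0 < ‖s + 1‖ := norm_pos_iff.2 (den_ne' (by linarith) hz)
  have h1 : ‖gg σ t z‖ ≤ 1 + 2 * ‖s - 1‖ := by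
    have h2 : ‖gg σ t z‖ = ‖H s‖ / ‖s + 1‖ := by
      unfold gg
      rw [norm_div]
    rw [h2, div_le_iff₀ hden]
    have h3 := H_le hs0
    have h4 := norm_le_den' (s := s) (by linarith)
    have h5 := norm_nonneg (s - 1)
    nlinarith [norm_nonneg s]
  have h6 : ‖s - 1‖ ≤ ‖z‖ + (1 / 2 + t) := by
    have h7 : s - 1 = z + (((σ - 1 : ℝ) : ℂ) + t * I) := by rw [hs]; push_cast; ring
    rw [h7]
    refine (norm_add_le _ _).trans (add_le_add le_rfl ((norm_add_le _ _).trans ?_))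
    rw [Complex.norm_real, norm_mul, Complex.norm_I, mul_one, Complex.norm_real,
      Real.norm_eq_abs, Real.norm_eq_abs, abs_of_nonneg (show 0 ≤ t by linarith),
      abs_of_nonpos (by linarith)]
    linarith
  linarith

theorem gg_le {σ t : ℝ} (hσ : 1 / 2 ≤ σ) (hσ1 : σ ≤ 1) (ht : 4 ≤ t) {z : ℂ} (hz : 0 ≤ z.re) :
    ‖gg σ t z‖ ≤ Real.exp (Real.log (2 + 2 * t) * (1 + Real.log (1 + ‖z‖))) := by
  have h1 := gg_le0 hσ hσ1 ht hz
  have hL : 1 ≤ Real.log (2 + 2 * t) := by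
    rw [Real.le_log_iff_exp_le (by linarith)]
    have := Real.exp_one_lt_d9
    linarith
  have hz1 : 0 ≤ Real.log (1 + ‖z‖) := Real.log_nonneg (by linarith [norm_nonneg z])
  calc ‖gg σ t z‖ ≤ (2 + 2 * t) * (1 + ‖z‖) := by nlinarith [norm_nonneg z]
    _ = Real.exp (Real.log (2 + 2 * t) + Real.log (1 + ‖z‖)) := by
        rw [Real.exp_add, Real.exp_log (by linarith), Real.exp_log (by linarith [norm_nonneg z])]
    _ ≤ _ := by
        apply Real.exp_le_exp.2
        nlinarith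

/-! ### The boundary values -/

theorem gg_line {σ : ℝ} (hσ : σ ≠ 1) (t y : ℝ) : gg σ t (y * I) =
    riemannZeta (σ + ((t + y : ℝ) : ℂ) * I) *
      ((σ + ((t + y : ℝ) : ℂ) * I - 1) / (σ + ((t + y : ℝ) : ℂ) * I + 1)) := by
  have h1 : (y * I + (σ + t * I) : ℂ) = σ + ((t + y : ℝ) : ℂ) * I := by
    push_cast
    ring
  have h2 : (σ + ((t + y : ℝ) : ℂ) * I : ℂ) ≠ 1 := by
    intro h
    have := congrArg Complex.re h
    simp at this
    exact hσ this
  unfold gg
  rw [h1, H_of_ne h2]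
  ring

theorem ratio' {σ : ℝ} (hσ : 1 / 2 ≤ σ) (hσ1 : σ < 1) (u : ℝ) :
    (1 - σ) / 3 ≤ ‖(σ + (u : ℂ) * I - 1) / (σ + (u : ℂ) * I + 1)‖ ∧
    ‖(σ + (u : ℂ) * I - 1) / (σ + (u : ℂ) * I + 1)‖ ≤ 1 := by
  set s : ℂ := σ + (u : ℂ) * I with hs
  have hre : s.re = σ := by simp [hs]
  have h0 : s + 1 ≠ 0 := by
    intro h
    have := congrArg Complex.re h
    simp [hre] at this
    linarith
  have hpos : 0 < ‖s + 1‖ := norm_pos_iff.2 h0
  rw [norm_div]
  constructor
  · rw [le_div_iff₀ hpos]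
    have h1 : ‖s + 1‖ ≤ ‖s - 1‖ + 2 := by
      have h2 : s + 1 = (s - 1) + 2 := by ring
      rw [h2]
      refine (norm_add_le _ _).trans ?_
      norm_num
    have h3 : 1 - σ ≤ ‖s - 1‖ := by
      have h4 := Complex.abs_re_le_norm (s - 1)
      rw [Complex.sub_re, hre, Complex.one_re, abs_of_neg (by linarith)] at h4
      linarith
    nlinarith
  · rw [div_le_one hpos]
    exact norm_le_den (by rw [hre]; linarith)

/-- the difference of the logarithms on the line -/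
theorem log_line' {σ : ℝ} (hσ : 1 / 2 ≤ σ) (hσ1 : σ < 1) (t y : ℝ) :
    Real.log ‖gg σ t (y * I)‖ ≤ Real.log ‖riemannZeta (σ + ((t + y : ℝ) : ℂ) * I)‖ ∧
    Real.log ‖riemannZeta (σ + ((t + y : ℝ) : ℂ) * I)‖ - Real.log ‖gg σ t (y * I)‖ ≤
      Real.log 3 - Real.log (1 - σ) := by
  rw [gg_line hσ1.ne, norm_mul]
  obtain ⟨h1, h2⟩ := ratio' hσ hσ1 (t + y)
  set q : ℝ := ‖(σ + ((t + y : ℝ) : ℂ) * I - 1) / (σ + ((t + y : ℝ) : ℂ) * I + 1)‖ with hq
  set p : ℝ := ‖riemannZeta (σ + ((t + y : ℝ) : ℂ) * I)‖ with hp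
  have hσ0 : 0 < 1 - σ := by linarith
  have hq0 : 0 < q := lt_of_lt_of_le (by positivity) h1
  have hlog3 : 0 ≤ Real.log 3 := Real.log_nonneg (by norm_num)
  have hlogσ : Real.log (1 - σ) ≤ 0 := Real.log_nonpos hσ0.le (by linarith)
  by_cases hp0 : p = 0
  · rw [hp0, zero_mul, Real.log_zero]
    exact ⟨le_rfl, by linarith⟩
  · rw [Real.log_mul hp0 hq0.ne']
    have h3 : Real.log q ≤ 0 := Real.log_nonpos hq0.le h2
    have h4 : Real.log (1 - σ) - Real.log 3 ≤ Real.log q := by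
      rw [← Real.log_div hσ0.ne' (by norm_num)]
      exact Real.log_le_log (by positivity) h1
    exact ⟨by linarith, by linarith⟩

/-! ### The orders -/

theorem order_eq' {σ : ℝ} (hσ : 0 ≤ σ) (t : ℝ) {s : ℂ} (hs : s ≠ 1) (hre : σ < s.re) :
    analyticOrderNatAt (gg σ t) (s - (σ + t * I)) = analyticOrderNatAt riemannZeta s := by
  set w₀ : ℂ := σ + t * I with hw₀
  set z : ℂ := s - w₀ with hz
  have hzs : z + w₀ = s := by rw [hz]; ring
  have hzre : 0 ≤ z.re := by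
    have : z.re = s.re - σ := by simp [hz, hw₀]
    rw [this]; linarith
  set k : ℂ → ℂ := fun x => (x + w₀ - 1) / (x + w₀ + 1) with hk
  have hkan : AnalyticAt ℂ k z := by
    refine AnalyticAt.div (by fun_prop) (by fun_prop) ?_
    exact den_ne' hσ hzre
  have hk0 : k z ≠ 0 := by
    refine div_ne_zero ?_ (den_ne' hσ hzre)
    rw [hzs]
    exact sub_ne_zero.2 hs
  have hsh : AnalyticAt ℂ (fun x : ℂ => x + w₀) z := by fun_prop
  have h1 : gg σ t =ᶠ[𝓝 z] (riemannZeta ∘ fun x => x + w₀) * k := by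
    have h2 : ∀ᶠ x in 𝓝 z, x + w₀ ≠ 1 := by
      have : ContinuousAt (fun x : ℂ => x + w₀) z := by fun_prop
      exact this.eventually_ne (by rw [hzs]; exact hs)
    filter_upwards [h2] with x hx
    show H (x + w₀) / (x + w₀ + 1) = riemannZeta (x + w₀) * ((x + w₀ - 1) / (x + w₀ + 1))
    rw [H_of_ne hx]
    ring
  have hζ : AnalyticAt ℂ (riemannZeta ∘ fun x => x + w₀) z := by
    refine AnalyticAt.comp ?_ hsh
    rw [hzs, Complex.analyticAt_iff_eventually_differentiableAt]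
    filter_upwards [isOpen_ne.mem_nhds hs] with x hx
    exact differentiableAt_riemannZeta hx
  unfold analyticOrderNatAt
  rw [analyticOrderAt_congr h1, analyticOrderAt_mul hζ hkan,
    hkan.analyticOrderAt_eq_zero.2 hk0, add_zero, analyticOrderAt_comp_of_deriv_ne_zero hsh ?_, hzs]
  have h3 : HasDerivAt (fun x : ℂ => x + w₀) 1 z := (hasDerivAt_id z).add_const w₀
  rw [h3.deriv]
  exact one_ne_zero

/-! ### Measurability -/

theorem H_meas : Measurable H :=
  (continuous_iff_continuousAt.2 fun s => (H_an s).continuousAt).measurable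

theorem zeta_meas : Measurable riemannZeta := by
  have h1 : riemannZeta = fun s => if s = 1 then riemannZeta 1 else H s / (s - 1) := by
    funext s
    by_cases hs : s = 1
    · rw [if_pos hs, hs]
    · rw [if_neg hs, H_of_ne hs, mul_div_cancel_left₀ _ (sub_ne_zero.2 hs)]
  rw [h1]
  exact Measurable.ite (measurableSet_singleton 1) measurable_const
    (H_meas.div (measurable_id.sub_const 1))

/-- the weighted logarithm of `gg` on the boundary -/
noncomputable def PG (t : ℝ) (p : ℝ × ℝ) : ℝ :=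
  Real.log ‖gg p.1 t (p.2 * I)‖ / (1 + p.2 ^ 2)

/-- the weighted logarithm of `ζ` -/
noncomputable def PZ (t : ℝ) (p : ℝ × ℝ) : ℝ :=
  Real.log ‖riemannZeta (p.1 + ((t + p.2 : ℝ) : ℂ) * I)‖ / (1 + p.2 ^ 2)

theorem PG_meas (t : ℝ) : Measurable (PG t) := by
  have h1 : Measurable fun p : ℝ × ℝ => ((p.2 : ℂ) * I + ((p.1 : ℂ) + t * I)) := by fun_prop
  have h2 : Measurable fun p : ℝ × ℝ => gg p.1 t (p.2 * I) :=
    (H_meas.comp h1).div (h1.add_const 1)
  exact (Real.measurable_log.comp h2.norm).div (by fun_prop)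

theorem PZ_meas (t : ℝ) : Measurable (PZ t) := by
  have h1 : Measurable fun p : ℝ × ℝ => ((p.1 : ℂ) + ((t + p.2 : ℝ) : ℂ) * I) := by fun_prop
  exact (Real.measurable_log.comp (zeta_meas.comp h1).norm).div (by fun_prop)

/-! ### An upper bound on the lines -/

/-- the upper bound -/
noncomputable def bd (t y : ℝ) : ℝ :=
  (Real.log 4 + Real.log ‖(y * I + ((1 + t : ℝ) : ℂ) : ℂ)‖) / (1 + y ^ 2)

theorem norm_bd {t : ℝ} (ht : 4 ≤ t) (y : ℝ) :
    2 + 2 * t + 2 * |y| ≤ 4 * ‖(y * I + ((1 + t : ℝ) : ℂ) : ℂ)‖ ∧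
    1 ≤ ‖(y * I + ((1 + t : ℝ) : ℂ) : ℂ)‖ := by
  set w : ℂ := y * I + ((1 + t : ℝ) : ℂ) with hw
  have h1 : w.re = 1 + t := by simp [hw]
  have h2 : w.im = y := by simp [hw]
  have h3 := Complex.abs_re_le_norm w
  have h4 := Complex.abs_im_le_norm w
  rw [h1, abs_of_nonneg (by linarith)] at h3
  rw [h2] at h4
  constructor <;> linarith

theorem bd_nonneg {t : ℝ} (ht : 4 ≤ t) (y : ℝ) : 0 ≤ bd t y := by
  have h1 := (norm_bd ht y).2
  have h2 := Real.log_nonneg h1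
  have h3 : 0 ≤ Real.log 4 := Real.log_nonneg (by norm_num)
  unfold bd
  positivity

theorem PG_le {σ t : ℝ} (hσ : 1 / 2 ≤ σ) (hσ1 : σ ≤ 1) (ht : 4 ≤ t) (y : ℝ) :
    PG t (σ, y) ≤ bd t y := by
  have h0 : (0 : ℝ) < 1 + y ^ 2 := by positivity
  obtain ⟨h1, h2⟩ := norm_bd ht y
  have h3 : 0 ≤ Real.log 4 := Real.log_nonneg (by norm_num)
  have h4 := Real.log_nonneg h2
  unfold PG bd
  refine div_le_div_of_nonneg_right ?_ h0.le
  show Real.log ‖gg σ t (y * I)‖ ≤ _
  by_cases hz : ‖gg σ t (y * I)‖ = 0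
  · rw [hz, Real.log_zero]
    linarith
  · have h5 := gg_le0 hσ hσ1 ht (z := y * I) (by simp)
    have h6 : ‖(y * I : ℂ)‖ = |y| := by
      rw [norm_mul, Complex.norm_I, mul_one, Complex.norm_real, Real.norm_eq_abs]
    rw [h6] at h5
    rw [← Real.log_mul (by norm_num) (by linarith)]
    exact Real.log_le_log (lt_of_le_of_ne (norm_nonneg _) (Ne.symm hz)) (h5.trans h1)

theorem bd_int (h : S_PJ) {t : ℝ} (ht : 4 ≤ t) : Integrable (bd t) := by
  have h1 := (h (fun z => z + ((1 + t : ℝ) : ℂ)) (Real.log (2 + 2 * t)) 1 one_pos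
    (fun z _ => by fun_prop) (fun z hz => by
      have hL : 1 ≤ Real.log (2 + 2 * t) := by
        rw [Real.le_log_iff_exp_le (by linarith)]
        have := Real.exp_one_lt_d9
        linarith
      have hz1 : 0 ≤ Real.log (1 + ‖z‖) := Real.log_nonneg (by linarith [norm_nonneg z])
      calc ‖z + ((1 + t : ℝ) : ℂ)‖ ≤ ‖z‖ + (1 + t) := by
            refine (norm_add_le _ _).trans ?_
            rw [Complex.norm_real, Real.norm_eq_abs, abs_of_nonneg (by linarith)]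
        _ ≤ (2 + 2 * t) * (1 + ‖z‖) := by nlinarith [norm_nonneg z]
        _ = Real.exp (Real.log (2 + 2 * t) + Real.log (1 + ‖z‖)) := by
            rw [Real.exp_add, Real.exp_log (by linarith),
              Real.exp_log (by linarith [norm_nonneg z])]
        _ ≤ _ := by
            apply Real.exp_le_exp.2
            nlinarith) (by
      intro h0
      have := congrArg Complex.re h0
      simp at this
      linarith)).1
  have h2 : bd t = fun y : ℝ => Real.log 4 * (1 + y ^ 2)⁻¹ +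
      Real.log ‖(y * I + ((1 + t : ℝ) : ℂ) : ℂ)‖ / (1 ^ 2 + y ^ 2) := by
    funext y
    unfold bd
    rw [one_pow, add_div, div_eq_mul_inv (Real.log 4)]
  rw [h2]
  exact (integrable_inv_one_add_sq.const_mul _).add h1

/-! ### The slice inequality -/

theorem gg_one {c₀ : ℝ} (hlow : ∀ s : ℂ, 3 / 2 ≤ s.re → c₀ ≤ ‖riemannZeta s‖)
    {σ t : ℝ} (hσ : 1 / 2 ≤ σ) (hσ1 : σ ≤ 1) (ht : 4 ≤ t) :
    c₀ / 2 ≤ ‖gg σ t ((1 : ℝ) : ℂ)‖ := by
  set s : ℂ := ((1 : ℝ) : ℂ) + (σ + t * I) with hs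
  have hre : s.re = 1 + σ := by simp [hs]
  have him : s.im = t := by simp [hs]
  have e2 : s ≠ 1 := by
    intro h
    have := congrArg Complex.im h
    rw [him, Complex.one_im] at this
    linarith
  have e6 : s + 1 ≠ 0 := by
    intro h
    have := congrArg Complex.im h
    rw [Complex.add_im, him, Complex.one_im, Complex.zero_im] at this
    linarith
  have e3 : gg σ t ((1 : ℝ) : ℂ) = riemannZeta s * ((s - 1) / (s + 1)) := by
    unfold gg
    rw [← hs, H_of_ne e2]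
    ring
  have e7 : (1 : ℝ) / 2 ≤ ‖(s - 1) / (s + 1)‖ := by
    rw [norm_div, le_div_iff₀ (norm_pos_iff.2 e6), ← sq_le_sq₀ (by positivity) (norm_nonneg _),
      mul_pow, Complex.sq_norm, Complex.sq_norm, Complex.normSq_apply, Complex.normSq_apply]
    simp only [Complex.add_re, Complex.add_im, Complex.sub_re, Complex.sub_im, Complex.one_re,
      Complex.one_im, hre, him]
    nlinarith
  rw [e3, norm_mul]
  calc c₀ / 2 = c₀ * (1 / 2) := by ring
    _ ≤ _ := mul_le_mul (hlow s (by rw [hre]; linarith)) e7 (by norm_num) (norm_nonneg _)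

theorem slice (h : S_PJ) {c₀ : ℝ} (hc₀ : 0 < c₀)
    (hlow : ∀ s : ℂ, 3 / 2 ≤ s.re → c₀ ≤ ‖riemannZeta s‖) (A : ℝ)
    {σ t : ℝ} (hσ : 1 / 2 ≤ σ) (hσ1 : σ < 1) (ht : 4 ≤ t) :
    Integrable (fun y : ℝ => PG t (σ, y)) ∧
    ∀ S : Finset ℂ, (∀ s ∈ S, 1 / 2 < s.re ∧ |s.im - t| ≤ A ∧ riemannZeta s = 0) →
      Real.pi * (Real.log (min (c₀ / 2) 1) + 2 / (3 * (1 + A ^ 2)) *
        ∑ s ∈ S, (analyticOrderNatAt riemannZeta s : ℝ) * max (s.re - σ) 0) ≤
      ∫ y : ℝ, PG t (σ, y) := by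
  set c₁ : ℝ := min (c₀ / 2) 1 with hc₁
  have hc₁0 : 0 < c₁ := lt_min (by positivity) one_pos
  have hv : c₁ ≤ ‖gg σ t ((1 : ℝ) : ℂ)‖ :=
    (min_le_left _ _).trans (gg_one hlow hσ hσ1.le ht)
  have hv0 : gg σ t ((1 : ℝ) : ℂ) ≠ 0 := by
    intro h0
    rw [h0, norm_zero] at hv
    linarith
  obtain ⟨hint, hsum⟩ := h (gg σ t) (Real.log (2 + 2 * t)) 1 one_pos
    (fun z hz => gg_an (by linarith) t hz) (fun z hz => gg_le hσ hσ1.le ht hz) hv0
  have hPG : (fun y : ℝ => PG t (σ, y)) =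
      fun y : ℝ => Real.log ‖gg σ t (y * I)‖ / (1 ^ 2 + y ^ 2) := by
    funext y
    unfold PG
    rw [one_pow]
  refine ⟨by rw [hPG]; exact hint, fun S hS => ?_⟩
  rw [hPG]
  have hπ := Real.pi_pos
  have hne : ∀ s ∈ S, s ≠ 1 ∧ s.re < 1 := by
    intro s hs
    obtain ⟨h1, h2, h3⟩ := hS s hs
    have h4 : s.re < 1 := by
      by_contra h5
      exact riemannZeta_ne_zero_of_one_le_re (not_lt.1 h5) h3
    refine ⟨?_, h4⟩
    rintro rfl
    simp at h4
  set S' : Finset ℂ := S.filter fun s => σ < s.re with hS'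
  have hmem : ∀ s ∈ S', s ∈ S ∧ σ < s.re := fun s hs => Finset.mem_filter.1 hs
  have hinj : Function.Injective fun s : ℂ => s - (σ + t * I) := sub_left_injective
  have hPJS := hsum (S'.image fun s => s - (σ + t * I)) (by
    intro z hz
    obtain ⟨s, hs, rfl⟩ := Finset.mem_image.1 hz
    obtain ⟨hs1, hs2⟩ := hmem s hs
    obtain ⟨h1, h2, h3⟩ := hS s hs1
    refine ⟨by simpa using hs2, ?_⟩
    unfold gg
    rw [sub_add_cancel, H_of_ne (hne s hs1).1, h3, mul_zero, zero_div])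
  rw [Finset.sum_image fun _ _ _ _ e => hinj e] at hPJS
  have hsub : ∑ s ∈ S, (analyticOrderNatAt riemannZeta s : ℝ) * max (s.re - σ) 0 =
      ∑ s ∈ S', (analyticOrderNatAt riemannZeta s : ℝ) * (s.re - σ) := by
    rw [hS', Finset.sum_filter]
    refine Finset.sum_congr rfl fun s _ => ?_
    split_ifs with h1
    · rw [max_eq_left (by linarith)]
    · rw [max_eq_right (by linarith), mul_zero]
  rw [hsub]
  have hterm : 2 / (3 * (1 + A ^ 2)) *
      ∑ s ∈ S', (analyticOrderNatAt riemannZeta s : ℝ) * (s.re - σ) ≤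
      ∑ s ∈ S', (analyticOrderNatAt (gg σ t) (s - (σ + t * I)) : ℝ) *
        Real.log (‖(((1 : ℝ) : ℂ)) + (s - (σ + t * I))‖ /
          ‖(((1 : ℝ) : ℂ)) - (s - (σ + t * I))‖) := by
    rw [Finset.mul_sum]
    refine Finset.sum_le_sum fun s hs => ?_
    obtain ⟨hs1, hs2⟩ := hmem s hs
    obtain ⟨h1, h2, h3⟩ := hS s hs1
    obtain ⟨h4, h5⟩ := hne s hs1
    rw [order_eq' (by linarith) t h4 hs2]
    have h6 : (s - (σ + t * I)).re = s.re - σ := by simp
    have h7 : (s - (σ + t * I)).im = s.im - t := by simp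
    have h8 := kernel (A := A) (z := s - (σ + t * I)) (by rw [h6]; linarith)
      (by rw [h6]; linarith) (by rw [h7]; exact h2)
    rw [h6] at h8
    rw [Complex.ofReal_one]
    calc 2 / (3 * (1 + A ^ 2)) * ((analyticOrderNatAt riemannZeta s : ℝ) * (s.re - σ))
        = (analyticOrderNatAt riemannZeta s : ℝ) * (2 / (3 * (1 + A ^ 2)) * (s.re - σ)) := by ring
      _ ≤ _ := mul_le_mul_of_nonneg_left h8 (Nat.cast_nonneg _)
  have hlogv : Real.log c₁ ≤ Real.log ‖gg σ t ((1 : ℝ) : ℂ)‖ := Real.log_le_log hc₁0 hv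
  have h9 : Real.log c₁ + 2 / (3 * (1 + A ^ 2)) *
      ∑ s ∈ S', (analyticOrderNatAt riemannZeta s : ℝ) * (s.re - σ) ≤
      1 / Real.pi * ∫ y : ℝ, Real.log ‖gg σ t (y * I)‖ / (1 ^ 2 + y ^ 2) := by linarith
  calc _ ≤ Real.pi * (1 / Real.pi * ∫ y : ℝ, Real.log ‖gg σ t (y * I)‖ / (1 ^ 2 + y ^ 2)) :=
        mul_le_mul_of_nonneg_left h9 hπ.le
    _ = _ := by
        rw [← mul_assoc, mul_one_div_cancel hπ.ne', one_mul]

/-! ### Integration over the lines -/

/-- Lebesgue measure on the segment -/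
noncomputable abbrev mu : Measure ℝ := volume.restrict (Ioo (1 / 2 : ℝ) 1)

theorem mu_ae {P : ℝ → Prop} (h : ∀ σ, 1 / 2 < σ → σ < 1 → P σ) : ∀ᵐ σ ∂mu, P σ := by
  rw [ae_restrict_iff' measurableSet_Ioo]
  exact Filter.Eventually.of_forall fun σ hσ => h σ hσ.1 hσ.2

theorem mu_ae2 {P : ℝ × ℝ → Prop} (h : ∀ σ y, 1 / 2 < σ → σ < 1 → P (σ, y)) :
    ∀ᵐ p ∂(mu.prod (volume : Measure ℝ)), P p := by
  have h1 : mu.prod (volume : Measure ℝ) =
      (volume.prod (volume : Measure ℝ)).restrict (Ioo (1 / 2 : ℝ) 1 ×ˢ (univ : Set ℝ)) := by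
    rw [← Measure.prod_restrict, Measure.restrict_univ]
  rw [h1, ae_restrict_iff' (measurableSet_Ioo.prod MeasurableSet.univ)]
  refine Filter.Eventually.of_forall fun p hp => ?_
  exact h p.1 p.2 hp.1.1 hp.1.2

theorem PG_int (h : S_PJ) {t : ℝ} (ht : 4 ≤ t) :
    Integrable (PG t) (mu.prod (volume : Measure ℝ)) := by
  obtain ⟨c₀, hc₀, hlow⟩ := zeta_low'
  have hb := bd_int h ht
  rw [integrable_prod_iff (PG_meas t).aestronglyMeasurable]
  refine ⟨mu_ae fun σ h1 h2 => (slice h hc₀ hlow 0 h1.le h2 ht).1, ?_⟩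
  set M : ℝ := 2 * (∫ y, bd t y) - Real.pi * Real.log (min (c₀ / 2) 1) with hM
  have hm : AEStronglyMeasurable (fun x => ∫ y, ‖PG t (x, y)‖) mu :=
    ((PG_meas t).norm.stronglyMeasurable.integral_prod_right').aestronglyMeasurable
  refine Integrable.mono' (integrable_const M) hm (mu_ae fun σ h1 h2 => ?_)
  obtain ⟨hi, hS⟩ := slice h hc₀ hlow 0 h1.le h2 ht
  have h3 := hS ∅ (by simp)
  rw [Finset.sum_empty, mul_zero, add_zero] at h3
  rw [Real.norm_eq_abs, abs_of_nonneg (integral_nonneg fun _ => norm_nonneg _)]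
  calc ∫ y, ‖PG t (σ, y)‖ ≤ ∫ y, (2 * bd t y - PG t (σ, y)) := by
        refine integral_mono hi.norm ((hb.const_mul 2).sub hi) fun y => ?_
        have h4 := PG_le h1.le h2.le ht y
        have h5 := bd_nonneg ht y
        show |PG t (σ, y)| ≤ 2 * bd t y - PG t (σ, y)
        rw [abs_le]
        constructor <;> linarith
    _ = 2 * (∫ y, bd t y) - ∫ y, PG t (σ, y) := by
        rw [integral_sub (hb.const_mul 2) hi, integral_const_mul]
    _ ≤ M := by rw [hM]; linarith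

theorem Q_int : Integrable (fun σ : ℝ => Real.log 3 - Real.log (1 - σ)) mu := by
  have h1 : IntervalIntegrable (fun σ : ℝ => Real.log (1 - σ)) volume (1 / 2) 1 := by
    have h2 : IntervalIntegrable Real.log volume (1 - 1 / 2) (1 - 1) :=
      intervalIntegral.intervalIntegrable_log'
    have h3 := h2.comp_sub_left 1
    simpa using h3
  have h4 := h1.1
  have h5 : IntegrableOn (fun σ : ℝ => Real.log (1 - σ)) (Ioo (1 / 2) 1) :=
    h4.mono_set Ioo_subset_Ioc_self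
  exact (integrable_const _).sub h5

theorem PZ_ge {σ : ℝ} (hσ : 1 / 2 < σ) (hσ1 : σ < 1) (t y : ℝ) :
    PG t (σ, y) ≤ PZ t (σ, y) := by
  have h0 : (0 : ℝ) < 1 + y ^ 2 := by positivity
  exact div_le_div_of_nonneg_right (log_line' hσ.le hσ1 t y).1 h0.le

theorem PZ_int (h : S_PJ) {t : ℝ} (ht : 4 ≤ t) :
    Integrable (PZ t) (mu.prod (volume : Measure ℝ)) := by
  have h1 := PG_int h ht
  have h2 : Integrable (fun p : ℝ × ℝ => (Real.log 3 - Real.log (1 - p.1)) * (1 + p.2 ^ 2)⁻¹)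
      (mu.prod (volume : Measure ℝ)) :=
    Integrable.mul_prod (f := fun σ : ℝ => Real.log 3 - Real.log (1 - σ))
      (g := fun y : ℝ => (1 + y ^ 2)⁻¹) Q_int integrable_inv_one_add_sq
  refine Integrable.mono' (h1.norm.add h2) (PZ_meas t).aestronglyMeasurable
    (mu_ae2 fun σ y hσ hσ1 => ?_)
  have h3 := PZ_ge hσ hσ1 t y
  have h0 : (0 : ℝ) < 1 + y ^ 2 := by positivity
  have h4 : PZ t (σ, y) - PG t (σ, y) ≤ (Real.log 3 - Real.log (1 - σ)) * (1 + y ^ 2)⁻¹ := by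
    unfold PZ PG
    rw [← sub_div, div_eq_mul_inv]
    exact mul_le_mul_of_nonneg_right (log_line' hσ.le hσ1 t y).2 (by positivity)
  show |PZ t (σ, y)| ≤ |PG t (σ, y)| + (Real.log 3 - Real.log (1 - σ)) * (1 + y ^ 2)⁻¹
  have h5 : |PZ t (σ, y)| ≤ |PG t (σ, y)| + |PZ t (σ, y) - PG t (σ, y)| := by
    have := abs_add_le (PG t (σ, y)) (PZ t (σ, y) - PG t (σ, y))
    rwa [add_sub_cancel] at this
  rw [abs_of_nonneg (sub_nonneg.2 h3)] at h5
  linarith

theorem HH_eq (t y : ℝ) : HH (t + y) / (1 + y ^ 2) = ∫ σ, PZ t (σ, y) ∂mu := by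
  have h1 : HH (t + y) =
      ∫ σ, Real.log ‖riemannZeta (σ + ((t + y : ℝ) : ℂ) * I)‖ ∂mu := by
    unfold HH
    rw [intervalIntegral.integral_of_le (by norm_num), integral_Ioc_eq_integral_Ioo]
  rw [h1, ← integral_div]
  rfl

theorem max_int {β : ℝ} (h1 : 1 / 2 < β) (h2 : β < 1) :
    ∫ σ, max (β - σ) 0 ∂mu = (β - 1 / 2) ^ 2 / 2 := by
  have hc : Continuous fun σ : ℝ => max (β - σ) 0 := by fun_prop
  have h3 : ∫ σ, max (β - σ) 0 ∂mu = ∫ σ in (1 / 2 : ℝ)..1, max (β - σ) 0 := by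
    rw [intervalIntegral.integral_of_le (by norm_num), integral_Ioc_eq_integral_Ioo]
  rw [h3, ← intervalIntegral.integral_add_adjacent_intervals (b := β)
    (hc.intervalIntegrable _ _) (hc.intervalIntegrable _ _)]
  have h4 : ∫ σ in (1 / 2 : ℝ)..β, max (β - σ) 0 = ∫ σ in (1 / 2 : ℝ)..β, (β - σ) := by
    refine intervalIntegral.integral_congr fun σ hσ => ?_
    rw [uIcc_of_le h1.le] at hσ
    exact max_eq_left (by linarith [hσ.2])
  have h5 : ∫ σ in β..(1 : ℝ), max (β - σ) 0 = ∫ σ in β..(1 : ℝ), (0 : ℝ) := by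
    refine intervalIntegral.integral_congr fun σ hσ => ?_
    rw [uIcc_of_le h2.le] at hσ
    exact max_eq_right (by linarith [hσ.1])
  rw [h4, h5, intervalIntegral.integral_sub (by simp) (by simp)]
  simp
  ring

/-! ### The theorem -/

theorem main (h : S_PJ) : S_ZH := by
  intro A
  obtain ⟨c₀, hc₀, hlow⟩ := zeta_low'
  set c₁ : ℝ := min (c₀ / 2) 1 with hc₁
  have hc₁0 : 0 < c₁ := lt_min (by positivity) one_pos
  have hlogc : Real.log c₁ ≤ 0 := Real.log_nonpos hc₁0.le (min_le_right _ _)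
  set κ : ℝ := 2 / (3 * (1 + A ^ 2)) with hκ
  have hκ0 : 0 < κ := by positivity
  set B : ℝ := -(Real.pi * Real.log c₁ / 2) with hB
  have hπ := Real.pi_pos
  have hB0 : 0 ≤ B := by
    have := mul_nonpos_of_nonneg_of_nonpos hπ.le hlogc
    linarith
  set C : ℝ := max (2 / (κ * Real.pi)) (max B 1) with hC
  have hC1 : 2 / (κ * Real.pi) ≤ C := le_max_left _ _
  have hC2 : B ≤ C := (le_max_left _ _).trans (le_max_right _ _)
  have hC3 : 1 ≤ C := (le_max_right _ _).trans (le_max_right _ _)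
  refine ⟨C, by linarith, fun t ht => ?_⟩
  have hGi := PG_int h ht
  have hZi := PZ_int h ht
  set G : ℝ → ℝ := fun y => HH (t + y) / (1 + y ^ 2) with hG
  have hGe : G = fun y => ∫ σ, PZ t (σ, y) ∂mu := by
    funext y
    exact HH_eq t y
  have hGint : Integrable G := by
    rw [hGe]
    exact hZi.integral_prod_right
  have hshift : (fun u : ℝ => HH u / (1 + (u - t) ^ 2)) = fun u => G (u - t) := by
    funext u
    rw [hG]
    simp only [add_sub_cancel]
  have hV : ∫ u : ℝ, HH u / (1 + (u - t) ^ 2) = ∫ y, G y := by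
    rw [hshift]
    exact integral_sub_right_eq_self G t
  refine ⟨by rw [hshift]; exact hGint.comp_sub_right t, fun S hS => ?_⟩
  rw [hV]
  -- the double integral
  have hdbl : ∫ σ, (∫ y, PG t (σ, y)) ∂mu ≤ ∫ y, G y := by
    calc ∫ σ, (∫ y, PG t (σ, y)) ∂mu = ∫ p, PG t p ∂(mu.prod (volume : Measure ℝ)) :=
          (integral_prod _ hGi).symm
      _ ≤ ∫ p, PZ t p ∂(mu.prod (volume : Measure ℝ)) :=
          integral_mono_ae hGi hZi (mu_ae2 fun σ y h1 h2 => PZ_ge h1 h2 t y)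
      _ = ∫ y, (∫ σ, PZ t (σ, y) ∂mu) := integral_prod_symm _ hZi
      _ = ∫ y, G y := by rw [hGe]
  have hne : ∀ s ∈ S, s.re < 1 := by
    intro s hs
    obtain ⟨h1, h2, h3⟩ := hS s hs
    by_contra h5
    exact riemannZeta_ne_zero_of_one_le_re (not_lt.1 h5) h3
  set T₀ : ℝ := ∑ s ∈ S, (analyticOrderNatAt riemannZeta s : ℝ) * (s.re - 1 / 2) ^ 2 with hT
  have hT0 : 0 ≤ T₀ := by
    refine Finset.sum_nonneg fun s hs => mul_nonneg (Nat.cast_nonneg _) (sq_nonneg _)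
  have hmaxi : ∀ β : ℝ, Integrable (fun σ : ℝ => max (β - σ) 0) mu := by
    intro β
    have hc : Continuous fun σ : ℝ => max (β - σ) 0 := by fun_prop
    exact (hc.integrableOn_Icc (a := 1 / 2) (b := 1)).mono_set Ioo_subset_Icc_self
  have hsumi : Integrable (fun σ : ℝ => ∑ s ∈ S, (analyticOrderNatAt riemannZeta s : ℝ) *
      max (s.re - σ) 0) mu := integrable_finsetSum _ fun s _ => (hmaxi _).const_mul _
  have hlhs : ∫ σ, Real.pi * (Real.log c₁ + κ *
      ∑ s ∈ S, (analyticOrderNatAt riemannZeta s : ℝ) * max (s.re - σ) 0) ∂mu =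
      Real.pi * (Real.log c₁ / 2 + κ * (T₀ / 2)) := by
    rw [integral_const_mul, integral_add (integrable_const _) (hsumi.const_mul _),
      integral_const_mul, integral_finsetSum _ fun s _ => (hmaxi _).const_mul _]
    have h1 : ∫ _ : ℝ, Real.log c₁ ∂mu = Real.log c₁ / 2 := by
      have h3 : mu.real univ = 1 / 2 := by
        rw [Measure.real, Measure.restrict_apply MeasurableSet.univ, univ_inter, Real.volume_Ioo,
          ENNReal.toReal_ofReal (by norm_num)]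
        norm_num
      rw [integral_const, h3, smul_eq_mul]
      ring
    have h2 : ∑ s ∈ S, ∫ σ, (analyticOrderNatAt riemannZeta s : ℝ) * max (s.re - σ) 0 ∂mu =
        T₀ / 2 := by
      rw [hT, Finset.sum_div]
      refine Finset.sum_congr rfl fun s hs => ?_
      rw [integral_const_mul, max_int (hS s hs).1 (hne s hs)]
      ring
    rw [h1, h2]
  have hkey : Real.pi * (Real.log c₁ / 2 + κ * (T₀ / 2)) ≤ ∫ y, G y := by
    rw [← hlhs]
    refine le_trans ?_ hdbl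
    refine integral_mono_ae (((integrable_const _).add (hsumi.const_mul _)).const_mul _)
      hGi.integral_prod_left (mu_ae fun σ h1 h2 => ?_)
    exact (slice h hc₀ hlow A h1.le h2 ht).2 S hS
  set V : ℝ := ∫ y, G y with hVV
  have hfin : κ * Real.pi / 2 * T₀ ≤ V + B := by
    have h1 : κ * Real.pi / 2 * T₀ =
        Real.pi * (Real.log c₁ / 2 + κ * (T₀ / 2)) + B := by
      rw [hB]
      ring
    rw [h1]
    linarith
  have hVB : 0 ≤ V + B := le_trans (by positivity) hfin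
  calc T₀ = 2 / (κ * Real.pi) * (κ * Real.pi / 2 * T₀) := by field_simp
    _ ≤ 2 / (κ * Real.pi) * (V + B) := mul_le_mul_of_nonneg_left hfin (by positivity)
    _ ≤ C * (V + B) := mul_le_mul_of_nonneg_right hC1 hVB
    _ ≤ C * (V + C) := mul_le_mul_of_nonneg_left (by linarith) (by linarith)

end Pool.Agent.N700.GM4
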