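import Mathlib
import Pool.Agent.N906.KG.Stm
import Pool.Agent.N327.NT_WINN

/-!
# Project KG (helper906), WINK: the window argument for tuples of ideals (helper700)

Adapted from `Pool/Agent/N327/NT_WINN.lean` (helper878, helper327, helper407).
-/

set_option autoImplicit false
set_option linter.all false

namespace Pool.Agent.N700.KG

open NumberField IsDedekindDomain Finset Filter Topology Pool.Agent.H691R3 Pool.Agent.W223.AK
open Pool.Agent.N906.NT (Cx cst)
open Pool.Agent.N906.KG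
open Pool.Agent.N878.NTW (choice)
open Pool.Agent.N327.NTW (inv1 inv2)

variable {K : Type} [Field K] [NumberField K] {n : ℕ}

/-- the sums from above -/
theorem gup (h : S_GUPK K) {Δ : Finset (Finset (Fin n))} {r t : ℕ} (hC : Cx Δ r t) (μ θ e : ℝ)
    (hμ : 0 < μ) (hθ : 0 ≤ θ) (hθ2 : θ ≤ 1 / 2) (he : 0 < e) :
    ∃ u₀ : ℝ, 0 < u₀ ∧ u₀ < 1 / 2 ∧ ∀ u : ℝ, 0 < u → u < u₀ → ∀ F : Finset (Fin n → Idl K),
      (∀ D ∈ F, Tp Δ D ∧ Sq D) →
      ∑ D ∈ F, μ ^ om D * Real.exp (-(u * gl D) - (1 - θ * u) * tr D) ≤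
        Real.exp ((1 + e) * μ * (t / (r * (r * (u * Real.log (1 / u))) ^ r))) := by
  obtain ⟨u₀, hu₀, hu₀2, h1⟩ := h n Δ r t μ θ e hC hμ hθ hθ2 he
  refine ⟨u₀, hu₀, hu₀2, fun u hu huu F hF => ?_⟩
  have h2 := h1 u hu huu F hF
  rwa [mul_div_assoc] at h2

/-- the sums from below -/
theorem glow (h : S_GLOWK K) {Δ : Finset (Finset (Fin n))} {r t : ℕ} (hC : Cx Δ r t) (e : ℝ)
    (he : 0 < e) (he3 : e < 1 / 3) :
    ∃ u₀ : ℝ, 0 < u₀ ∧ u₀ < 1 / 2 ∧ ∀ u : ℝ, 0 < u → u < u₀ → ∃ F : Finset (Fin n → Idl K),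
      (∀ D ∈ F, Tp Δ D ∧ Sq D ∧ ∀ v ∈ sp D, u ^ (-((r : ℝ) + e)) ≤ Nv v) ∧
      Real.exp ((1 - 3 * e) * (t / (r * (r * (u * Real.log (1 / u))) ^ r))) ≤
        ∑ D ∈ F, Real.exp (-(u * gl D) - tr D) := by
  obtain ⟨u₀, hu₀, hu₀2, h1⟩ := h n Δ r t e hC he he3
  refine ⟨u₀, hu₀, hu₀2, fun u hu huu => ?_⟩
  obtain ⟨F, hF, hs⟩ := h1 u hu huu
  refine ⟨F, hF, ?_⟩
  rwa [mul_div_assoc] at hs

/-- WINK, the window argument. -/
theorem wink (K : Type) [Field K] [NumberField K] (h1 : S_GUPK K) (h2 : S_GLOWK K) : S_WINK K := by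
  intro n Δ r t ε c hC hε hε1 hc
  have hr : 1 ≤ r := hC.1
  have ht : 1 ≤ t := hC.2.1
  have hr1 : (1 : ℝ) ≤ r := by exact_mod_cast hr
  have hr0 : (0 : ℝ) < r := by linarith
  obtain ⟨x, hxd⟩ : ∃ x : ℝ, x = ε / 40 := ⟨_, rfl⟩
  have hx0 : 0 < x := by rw [hxd]; positivity
  have hx1 : x ≤ 1 / 40 := by rw [hxd]; linarith
  obtain ⟨τ, hτd⟩ : ∃ τ : ℝ, τ = x / r := ⟨_, rfl⟩
  have hτ : 0 < τ := by rw [hτd]; positivity
  have hxτ : x = r * τ := by rw [hτd]; field_simp
  have hτx : τ ≤ x := by rw [hxτ]; nlinarith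
  have hτ1 : τ ≤ 1 / 40 := hτx.trans hx1
  obtain ⟨e, hed⟩ : ∃ e : ℝ, e = x ^ 2 / (9 * r) := ⟨_, rfl⟩
  have he : 0 < e := by rw [hed]; positivity
  have hre : 9 * (r * e) = x ^ 2 := by rw [hed]; field_simp
  have hre1 : e ≤ r * e := by nlinarith
  have hx2 : x ^ 2 ≤ x / 40 := by nlinarith
  have hre2 : r * e ≤ x / 360 := by linarith
  have he1 : e ≤ 1 / 100 := by linarith
  obtain ⟨a, had⟩ : ∃ a : ℝ, a = 1 / (1 + 7 * x) := ⟨_, rfl⟩
  have ha0 : 0 < a := by rw [had]; positivity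
  have ha1 : a ≤ 1 := by rw [had, div_le_one (by positivity)]; linarith
  have hainv : 1 / a = 1 + 7 * x := by rw [had, one_div_one_div]
  have ha7 : 1 - 7 * x ≤ a := by
    rw [had, le_div_iff₀ (by positivity)]
    nlinarith
  obtain ⟨u1, hu1, -, hU1⟩ := gup h1 hC 1 0 e one_pos le_rfl (by norm_num) he
  obtain ⟨u3, hu3, -, hU3⟩ := gup h1 hC 1 (1 / 2) e one_pos (by norm_num) le_rfl he
  obtain ⟨u4, hu4, -, hU4⟩ := gup h1 hC 2 0 e two_pos le_rfl (by norm_num) he
  obtain ⟨u5, hu5, -, hU5⟩ := glow h2 hC (r * e) (by positivity) (by linarith)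
  obtain ⟨m, hm0, hm1, hm3, hm4, hm5⟩ : ∃ m : ℝ, 0 < m ∧ m ≤ u1 ∧ m ≤ u3 ∧ m ≤ u4 ∧ m ≤ u5 := by
    refine ⟨min u1 (min u3 (min u4 u5)), ?_, ?_, ?_, ?_, ?_⟩
    · simp only [lt_min_iff]
      exact ⟨hu1, hu3, hu4, hu5⟩
    · exact min_le_left _ _
    · exact (min_le_right _ _).trans (min_le_left _ _)
    · exact (min_le_right _ _).trans ((min_le_right _ _).trans (min_le_left _ _))
    · exact (min_le_right _ _).trans ((min_le_right _ _).trans (min_le_right _ _))
  obtain ⟨Z₀, hZ₀, hZ⟩ := choice r t hr ht a e c (3 / e) m ha0 ha1 he (by linarith) hm0 hc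
  refine ⟨Z₀, hZ₀, fun Z hZZ => ?_⟩
  obtain ⟨u, B, hu0, hu1', hum, hB0, hMB, huB, hgen, hG, hsq, hcB, hW1, hW2⟩ := hZ Z hZZ
  have hZp : 0 < Z := by linarith
  have huZ : u * Z = r * B / a := by
    rw [eq_div_iff ha0.ne', ← huB]; ring
  have huZ' : u * Z = r * B * (1 + 7 * x) := by
    rw [huZ, ← hainv]; ring
  have heB : 3 ≤ e * B := by
    rw [div_le_iff₀ he] at hMB
    linarith
  -- the main sum
  obtain ⟨F₀, hF₀, hF₀s⟩ := hU5 u hu0 (by linarith)
  have hmain : Real.exp ((1 - 4 * (r * e)) * B) ≤ ∑ D ∈ F₀, Real.exp (-(u * gl D) - tr D) := by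
    refine le_trans (Real.exp_le_exp.2 ?_) hF₀s
    have h4 : 0 < 1 - 3 * (r * e) := by linarith
    refine le_trans ?_ (mul_le_mul_of_nonneg_left hG h4.le)
    have : 0 ≤ 3 * (r * e) * (r * e) * B := by positivity
    nlinarith only [this]
  have hPC : ∀ D ∈ F₀, Tp Δ D ∧ Sq D := fun D hD => ⟨(hF₀ D hD).1, (hF₀ D hD).2.1⟩
  -- the four sums
  have hτu : 0 < τ * u := mul_pos hτ hu0
  have b1 := hU1 ((1 - τ) * u) (by have : 0 < 1 - τ := by linarith
                                   positivity) (by nlinarith only [hτu, hu0, hum, hm1]) F₀ hPC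
  have b2 := hU1 ((1 + τ) * u) (by positivity) (by nlinarith only [hτ1, hu0, hum, hm1]) F₀ hPC
  have b3 := hU3 u hu0 (by linarith) F₀ hPC
  have b4 := hU4 u hu0 (by linarith) F₀ hPC
  have c1 := hgen (1 - τ) (by linarith) (by linarith)
  have c2 := hgen (1 + τ) (by linarith) (by linarith)
  have c3 := hgen 1 one_pos (by norm_num)
  rw [one_mul, one_pow, div_one] at c3
  have hRHS0 : Real.exp ((1 - 2 * e - 4 * (r * e)) * B) ≤ Real.exp ((1 - 4 * (r * e)) * B) / 8 := by
    rw [le_div_iff₀ (by norm_num), mul_comm, ← Real.exp_log (show (0:ℝ) < 8 by norm_num),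
      ← Real.exp_add]
    apply Real.exp_le_exp.2
    have : Real.log 8 ≤ 3 := by
      have h3 : Real.log 8 = 3 * Real.log 2 := by
        rw [show (8 : ℝ) = 2 ^ 3 by norm_num, Real.log_pow]; norm_num
      rw [h3]
      have := Real.log_two_lt_d9
      linarith
    linarith
  have i1 := inv1 r τ x hr hτ hxτ (by linarith)
  have i2 := inv2 r τ x hr hτ hxτ (by linarith)
  have d1 : Real.exp (-(τ * (u * Z))) *
      ∑ D ∈ F₀, 1 ^ om D * Real.exp (-((1 - τ) * u * gl D) - (1 - 0 * ((1 - τ) * u)) * tr D) ≤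
      Real.exp ((1 - 2 * e - 4 * (r * e)) * B) := by
    refine (mul_le_mul_of_nonneg_left b1 (Real.exp_pos _).le).trans ?_
    rw [← Real.exp_add, huZ']
    apply Real.exp_le_exp.2
    have g1 := mul_le_mul_of_nonneg_left c1 (by positivity : 0 ≤ (1 + e) * 1)
    have g2 : B / (1 - τ) ^ r ≤ (1 + x + 6 * x ^ 2) * B := by
      rw [div_eq_mul_one_div, mul_comm]
      exact mul_le_mul_of_nonneg_right i1 hB0.le
    have g3 := mul_le_mul_of_nonneg_left g2 (by positivity : 0 ≤ (1 + e) * 1)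
    have g4 : -(τ * (r * B * (1 + 7 * x))) = -(x * (1 + 7 * x)) * B := by rw [hxτ]; ring
    rw [g4]
    refine (add_le_add le_rfl (g1.trans g3)).trans ?_
    have g5 : -(x * (1 + 7 * x)) * B + (1 + e) * 1 * ((1 + x + 6 * x ^ 2) * B) =
        (-(x * (1 + 7 * x)) + (1 + e) * (1 + x + 6 * x ^ 2)) * B := by ring
    rw [g5]
    apply mul_le_mul_of_nonneg_right _ hB0.le
    have g6 : e * (1 + x + 6 * x ^ 2) ≤ e * 3 :=
      mul_le_mul_of_nonneg_left (by nlinarith only [hx0, hx1]) he.le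
    linarith
  have d2 : Real.exp (τ * (u * ((1 - 12 * x) * Z))) *
      ∑ D ∈ F₀, 1 ^ om D * Real.exp (-((1 + τ) * u * gl D) - (1 - 0 * ((1 + τ) * u)) * tr D) ≤
      Real.exp ((1 - 2 * e - 4 * (r * e)) * B) := by
    refine (mul_le_mul_of_nonneg_left b2 (Real.exp_pos _).le).trans ?_
    rw [← Real.exp_add]
    apply Real.exp_le_exp.2
    have g1 := mul_le_mul_of_nonneg_left c2 (by positivity : 0 ≤ (1 + e) * 1)
    have g2 : B / (1 + τ) ^ r ≤ (1 - x + 2 * x ^ 2) * B := by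
      rw [div_eq_mul_one_div, mul_comm]
      exact mul_le_mul_of_nonneg_right i2 hB0.le
    have g3 := mul_le_mul_of_nonneg_left g2 (by positivity : 0 ≤ (1 + e) * 1)
    have g4 : τ * (u * ((1 - 12 * x) * Z)) = x * (1 - 12 * x) * (1 + 7 * x) * B := by
      have : τ * (u * ((1 - 12 * x) * Z)) = τ * (1 - 12 * x) * (u * Z) := by ring
      rw [this, huZ', hxτ]; ring
    rw [g4]
    refine (add_le_add le_rfl (g1.trans g3)).trans ?_
    have g5 : x * (1 - 12 * x) * (1 + 7 * x) * B + (1 + e) * 1 * ((1 - x + 2 * x ^ 2) * B) =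
        (x * (1 - 12 * x) * (1 + 7 * x) + (1 + e) * (1 - x + 2 * x ^ 2)) * B := by ring
    rw [g5]
    apply mul_le_mul_of_nonneg_right _ hB0.le
    have g6 : e * (1 - x + 2 * x ^ 2) ≤ e * 2 :=
      mul_le_mul_of_nonneg_left (by nlinarith only [hx0, hx1]) he.le
    have g7 : 0 ≤ x ^ 3 := by positivity
    nlinarith only [g6, g7, hre, hre1, he]
  have d3 : Real.exp (-(u / 2 * (ε * Z))) *
      ∑ D ∈ F₀, 1 ^ om D * Real.exp (-(u * gl D) - (1 - 1 / 2 * u) * tr D) ≤
      Real.exp ((1 - 2 * e - 4 * (r * e)) * B) := by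
    refine (mul_le_mul_of_nonneg_left b3 (Real.exp_pos _).le).trans ?_
    rw [← Real.exp_add]
    apply Real.exp_le_exp.2
    have g1 := mul_le_mul_of_nonneg_left c3 (by positivity : 0 ≤ (1 + e) * 1)
    have h5 : -(u / 2 * (ε * Z)) = -(20 * x) * (r * B * (1 + 7 * x)) := by
      rw [← huZ', hxd]; ring
    rw [h5]
    have g2 : x * B ≤ x * (r * B * (1 + 7 * x)) := by
      apply mul_le_mul_of_nonneg_left _ hx0.le
      have g4 : B ≤ r * B := by nlinarith only [hr1, hB0]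
      nlinarith only [g4, hx0, mul_pos hr0 hB0]
    have g3 : 0 ≤ B * x := by positivity
    have g6 : (r * e) * B ≤ (x / 360) * B := mul_le_mul_of_nonneg_right hre2 hB0.le
    have g7 : e * B ≤ (x / 360) * B := mul_le_mul_of_nonneg_right (hre1.trans hre2) hB0.le
    linarith
  have d4 : Real.exp (-(Real.log 2 * (4 * B))) *
      ∑ D ∈ F₀, 2 ^ om D * Real.exp (-(u * gl D) - (1 - 0 * u) * tr D) ≤
      Real.exp ((1 - 2 * e - 4 * (r * e)) * B) := by
    refine (mul_le_mul_of_nonneg_left b4 (Real.exp_pos _).le).trans ?_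
    rw [← Real.exp_add]
    apply Real.exp_le_exp.2
    have g1 := mul_le_mul_of_nonneg_left c3 (by positivity : 0 ≤ (1 + e) * 2)
    have h5 : 0.6931471803 < Real.log 2 := Real.log_two_gt_d9
    have h7 : 0.69 * (4 * B) ≤ Real.log 2 * (4 * B) :=
      mul_le_mul_of_nonneg_right (by linarith) (by positivity)
    have g6 : (r * e) * B ≤ (1 / 360) * B :=
      mul_le_mul_of_nonneg_right (by linarith) hB0.le
    have g7 : e * B ≤ (1 / 360) * B := mul_le_mul_of_nonneg_right (by linarith) hB0.le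
    linarith
  classical
  obtain ⟨F, hFd⟩ : ∃ F : Finset (Fin n → Idl K), F = F₀.filter (fun D => gl D ≤ Z ∧
    (1 - 12 * x) * Z ≤ gl D ∧ tr D ≤ ε * Z ∧ (om D : ℝ) ≤ 4 * B) := ⟨_, rfl⟩
  refine ⟨F, ?_, ?_⟩
  · intro D hD
    rw [hFd, mem_filter] at hD
    obtain ⟨hD0, hD1, hD2, hD3, hD4⟩ := hD
    obtain ⟨hP1, hP2, hP3'⟩ := hF₀ D hD0
    have hP3 : ∀ v ∈ sp D, u ^ (-(r * (1 + e))) ≤ Nv v := by
      have : (r : ℝ) * (1 + e) = r + r * e := by ring
      rw [this]
      exact hP3'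
    refine ⟨hP1, hP2, fun p hp => hsq.trans_le (hP3 p hp), hD1, hD3, ?_⟩
    have h5 : rs D ≤ om D * u ^ (r * (1 + e)) := by
      unfold om rs
      rw [← nsmul_eq_mul]
      apply Finset.sum_le_card_nsmul
      intro v hv
      have h6 := hP3 v hv
      have h7 : 0 < u ^ (-(r * (1 + e))) := Real.rpow_pos_of_pos hu0 _
      have h8 := inv_anti₀ h7 h6
      rwa [← Real.rpow_neg hu0.le, neg_neg] at h8
    exact h5.trans ((mul_le_mul_of_nonneg_right hD4 (Real.rpow_pos_of_pos hu0 _).le).trans hcB)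
  · -- pointwise bound
    have hpt : ∀ D ∈ F₀, Real.exp (-(u * gl D) - tr D) ≤
        (if D ∈ F then Real.exp (-(u * gl D) - tr D) else 0) +
        (Real.exp (-(τ * (u * Z))) *
          (1 ^ om D * Real.exp (-((1 - τ) * u * gl D) - (1 - 0 * ((1 - τ) * u)) * tr D)) +
        Real.exp (τ * (u * ((1 - 12 * x) * Z))) *
          (1 ^ om D * Real.exp (-((1 + τ) * u * gl D) - (1 - 0 * ((1 + τ) * u)) * tr D)) +
        Real.exp (-(u / 2 * (ε * Z))) *
          (1 ^ om D * Real.exp (-(u * gl D) - (1 - 1 / 2 * u) * tr D)) +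
        Real.exp (-(Real.log 2 * (4 * B))) *
          (2 ^ om D * Real.exp (-(u * gl D) - (1 - 0 * u) * tr D))) := by
      intro D hD
      have p1 : 0 ≤ Real.exp (-(τ * (u * Z))) *
          (1 ^ om D * Real.exp (-((1 - τ) * u * gl D) - (1 - 0 * ((1 - τ) * u)) * tr D)) := by
        positivity
      have p2 : 0 ≤ Real.exp (τ * (u * ((1 - 12 * x) * Z))) *
          (1 ^ om D * Real.exp (-((1 + τ) * u * gl D) - (1 - 0 * ((1 + τ) * u)) * tr D)) := by
        positivity
      have p3 : 0 ≤ Real.exp (-(u / 2 * (ε * Z))) *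
          (1 ^ om D * Real.exp (-(u * gl D) - (1 - 1 / 2 * u) * tr D)) := by positivity
      have p4 : 0 ≤ Real.exp (-(Real.log 2 * (4 * B))) *
          (2 ^ om D * Real.exp (-(u * gl D) - (1 - 0 * u) * tr D)) := by positivity
      by_cases hDF : D ∈ F
      · rw [if_pos hDF]; linarith
      rw [if_neg hDF]
      rw [hFd, mem_filter] at hDF
      simp only [not_and, not_le] at hDF
      have hDF := hDF hD
      by_cases q1 : Z < gl D
      · have : Real.exp (-(u * gl D) - tr D) ≤ Real.exp (-(τ * (u * Z))) *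
          (1 ^ om D * Real.exp (-((1 - τ) * u * gl D) - (1 - 0 * ((1 - τ) * u)) * tr D)) := by
          rw [one_pow, one_mul, ← Real.exp_add]
          apply Real.exp_le_exp.2
          linarith only [mul_le_mul_of_nonneg_left q1.le (mul_pos hτ hu0).le]
        linarith
      by_cases q2 : gl D < (1 - 12 * x) * Z
      · have : Real.exp (-(u * gl D) - tr D) ≤ Real.exp (τ * (u * ((1 - 12 * x) * Z))) *
          (1 ^ om D * Real.exp (-((1 + τ) * u * gl D) - (1 - 0 * ((1 + τ) * u)) * tr D)) := by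
          rw [one_pow, one_mul, ← Real.exp_add]
          apply Real.exp_le_exp.2
          linarith only [mul_le_mul_of_nonneg_left q2.le (mul_pos hτ hu0).le]
        linarith
      by_cases q3 : ε * Z < tr D
      · have : Real.exp (-(u * gl D) - tr D) ≤ Real.exp (-(u / 2 * (ε * Z))) *
          (1 ^ om D * Real.exp (-(u * gl D) - (1 - 1 / 2 * u) * tr D)) := by
          rw [one_pow, one_mul, ← Real.exp_add]
          apply Real.exp_le_exp.2
          linarith only [mul_le_mul_of_nonneg_left q3.le hu0.le]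
        linarith
      have q4 := hDF (not_lt.1 q1) (not_lt.1 q2) (not_lt.1 q3)
      have : Real.exp (-(u * gl D) - tr D) ≤ Real.exp (-(Real.log 2 * (4 * B))) *
          (2 ^ om D * Real.exp (-(u * gl D) - (1 - 0 * u) * tr D)) := by
        have h2 : (2:ℝ) ^ om D = Real.exp (Real.log 2 * om D) := by
          rw [mul_comm, Real.exp_nat_mul, Real.exp_log two_pos]
        rw [h2, ← Real.exp_add, ← Real.exp_add]
        apply Real.exp_le_exp.2
        have : Real.log 2 * (4 * B) ≤ Real.log 2 * om D :=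
          mul_le_mul_of_nonneg_left q4.le (Real.log_pos one_lt_two).le
        linarith
      linarith
    have hsum := Finset.sum_le_sum hpt
    rw [Finset.sum_add_distrib, Finset.sum_add_distrib, Finset.sum_add_distrib,
      Finset.sum_add_distrib, ← Finset.mul_sum, ← Finset.mul_sum, ← Finset.mul_sum,
      ← Finset.mul_sum] at hsum
    have hFsum : ∑ D ∈ F₀, (if D ∈ F then Real.exp (-(u * gl D) - tr D) else 0) =
        ∑ D ∈ F, Real.exp (-(u * gl D) - tr D) := by
      rw [← Finset.sum_filter]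
      congr 1
      rw [hFd]
      ext D
      simp only [mem_filter]
      tauto
    rw [hFsum] at hsum
    have hW : Real.exp ((1 - 4 * (r * e)) * B) / 2 ≤ ∑ D ∈ F, Real.exp (-(u * gl D) - tr D) := by
      linarith
    have hlow : Real.exp (u * ((1 - 12 * x) * Z)) * ∑ D ∈ F, Real.exp (-(u * gl D) - tr D) ≤
        ∑ D ∈ F, Real.exp (-tr D) := by
      rw [Finset.mul_sum]
      apply Finset.sum_le_sum
      intro D hD
      rw [hFd, mem_filter] at hD
      rw [← Real.exp_add]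
      apply Real.exp_le_exp.2
      linarith only [mul_le_mul_of_nonneg_left hD.2.2.1 hu0.le]
    refine le_trans ?_ hlow
    refine le_trans ?_ (mul_le_mul_of_nonneg_left hW (Real.exp_pos _).le)
    have h2 : Real.exp ((1 - 4 * (r * e)) * B) / 2 =
        Real.exp ((1 - 4 * (r * e)) * B - Real.log 2) := by
      rw [Real.exp_sub, Real.exp_log two_pos]
    rw [h2, ← Real.exp_add]
    apply Real.exp_le_exp.2
    obtain ⟨W, hWd⟩ : ∃ W : ℝ, W = cst r t * (Z / Real.log Z) ^ ((r : ℝ) / (r + 1)) := ⟨_, rfl⟩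
    rw [← hWd] at hW1 hW2
    have hgoal : (1 - ε) * cst r t * (Z / Real.log Z) ^ ((r : ℝ) / (r + 1)) = (1 - ε) * W := by
      rw [hWd]; ring
    rw [hgoal]
    have h5 : u * ((1 - 12 * x) * Z) = (1 - 12 * x) * (r * B * (1 + 7 * x)) := by
      rw [← huZ']; ring
    rw [h5]
    have hrB : 0 < r * B := mul_pos hr0 hB0
    have h6 : (1 - 12 * x) * (r * B) ≤ (1 - 12 * x) * (r * B * (1 + 7 * x)) := by
      apply mul_le_mul_of_nonneg_left _ (by linarith)
      nlinarith only [hrB, hx0]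
    have hWB : B ≤ W := by nlinarith only [hW2, hrB]
    have hW0 : 0 < W := hB0.trans_le hWB
    have h7 : (1 - 13 * x) * ((r + 1) * B) ≤ (1 - 12 * x) * (r * B) +
        (1 - 4 * (r * e)) * B := by
      have g6 : (r * e) * B ≤ (x / 360) * B := mul_le_mul_of_nonneg_right hre2 hB0.le
      have g7 : e * B ≤ (x / 360) * B := mul_le_mul_of_nonneg_right (hre1.trans hre2) hB0.le
      have g8 : 0 < x * (r * B) := by positivity
      have g9 : 0 < x * B := by positivity
      nlinarith only [g6, g7, g8, g9]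
    have h8 : (1 - 13 * x) * (a * W) ≤ (1 - 13 * x) * ((r + 1) * B) :=
      mul_le_mul_of_nonneg_left hW1 (by linarith)
    have h9 : (1 - 20 * x) * W ≤ (1 - 13 * x) * (a * W) := by
      have g1 : (1 - 13 * x) * ((1 - 7 * x) * W) ≤ (1 - 13 * x) * (a * W) :=
        mul_le_mul_of_nonneg_left (mul_le_mul_of_nonneg_right ha7 hW0.le) (by linarith)
      have g2 : 0 ≤ x ^ 2 * W := by positivity
      nlinarith only [g1, g2]
    have h10 : Real.log 2 ≤ x * W := by
      have g1 := Real.log_two_lt_d9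
      have g2 : e * B ≤ x * W := by
        have : e ≤ x := by linarith
        exact mul_le_mul this hWB hB0.le hx0.le
      linarith
    have h11 : ε = 40 * x := by rw [hxd]; ring
    rw [h11]
    have g9 : 0 < x * W := by positivity
    linarith

end Pool.Agent.N700.KG
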