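import Pool.Agent.N804.GM.StmS

/-!
# Project SC (helper804), part 3 (helper700): the convexity bound, uniform in families
-/

set_option autoImplicit false

namespace Pool.Agent.N700.SC3

open Complex Filter Topology Set MeasureTheory
open H855R2.SF Pool.Agent.W188.GLR Pool.Agent.N799.GL Pool.Agent.N804.GM

variable {m : ℕ} {ι : Type} {N : ι → ℕ} {mu : ι → Fin m → ℂ} {f : ι → ℂ → ℂ} {X : ι → ℝ → ℝ} {δ : ℝ}

/-- the family with the local conductors -/
theorem afamL (H : GLData m N mu f X δ) :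
    AFam (m : ℝ) f (fun i t => QL (N i) (mu i) t) where
  m0 := by positivity
  Q1 := fun i t => QL_pos (H.N_pos i) (mu i) t
  Qs := fun i t u => cond_shift (N i) (mu i) t u
  diff := H.entire
  order := H.order
  right := by
    intro d hd
    have hm2 : (0 : ℝ) < m + 2 := by positivity
    have hd' : 0 < d / (m + 2) := by positivity
    have hdd : d / (m + 2) ≤ d := by
      rw [div_le_iff₀ hm2]
      have : (0 : ℝ) ≤ m := Nat.cast_nonneg m
      nlinarith
    obtain ⟨B, hB⟩ := H.molteni (d / (m + 2)) hd'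
    refine ⟨|B|, fun i s hs => ?_⟩
    have h1 := H.C1 i
    have h0 := QL_pos (H.N_pos i) (mu i) s.im
    refine (hB i s (by linarith)).trans ?_
    have h2 : (N i : ℝ) * ∏ j, (1 + ‖mu i j‖) ≤ (1 + |s.im|) * (N i * ∏ j, (1 + ‖mu i j‖)) := by
      nlinarith [abs_nonneg s.im]
    have h3 := h2.trans (cond_lower H.hm (H.N_pos i) (H.im_sum i) s.im)
    have h4 : ((N i : ℝ) * ∏ j, (1 + ‖mu i j‖)) ^ (d / (m + 2)) ≤
        QL (N i) (mu i) s.im ^ d := by
      calc ((N i : ℝ) * ∏ j, (1 + ‖mu i j‖)) ^ (d / (m + 2))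
          ≤ (QL (N i) (mu i) s.im ^ (m + 2)) ^ (d / (m + 2)) :=
            Real.rpow_le_rpow (by linarith) h3 hd'.le
        _ = QL (N i) (mu i) s.im ^ d := by
            rw [← Real.rpow_natCast, ← Real.rpow_mul (by linarith)]
            congr 1
            push_cast
            field_simp
    calc B * (N i * ∏ j, (1 + ‖mu i j‖)) ^ (d / (m + 2)) ≤
          |B| * (N i * ∏ j, (1 + ‖mu i j‖)) ^ (d / (m + 2)) :=
          mul_le_mul_of_nonneg_right (le_abs_self B) (Real.rpow_nonneg (by linarith) _)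
      _ ≤ _ := mul_le_mul_of_nonneg_left h4 (abs_nonneg B)
  refl := by
    refine ⟨16 ^ m, by positivity, fun i x t hx0 hx1 => ?_⟩
    obtain ⟨root, hroot, hfe⟩ := H.fe i
    have hmu : ∀ j, (mu i j).re < 1 / 2 := fun j => by linarith [H.gap i j, H.hδ]
    exact refl_of_fe (H.N_pos i) (mu i) hmu hroot hfe (t := t) hx0 hx1

/-- the convexity bound -/
theorem cvx : S_CVX := by
  intro ι m N mu f X δ H ε hε
  have H' := afamL H
  set η : ℝ := min (ε / 2) (1 / 4) with hη
  have hη0 : 0 < η := lt_min (by linarith) (by norm_num)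
  have hη1 : η ≤ ε / 2 := min_le_left _ _
  have hη2 : η ≤ 1 / 4 := min_le_right _ _
  obtain ⟨B, hB⟩ := H'.right η hη0
  obtain ⟨C, hC, hr⟩ := H'.refl
  have hBn : ∀ i (s : ℂ), 1 + η ≤ s.re → ‖f i s‖ ≤ |B| * QL (N i) (mu i) s.im ^ η := by
    intro i s hs
    refine (hB i s hs).trans ?_
    exact mul_le_mul_of_nonneg_right (le_abs_self B)
      (Real.rpow_nonneg (by linarith [H'.Q1 i s.im]) _)
  obtain ⟨D, hD, hpl⟩ := pl H' (a := -η) (b := 1 + η) (ea := 1 / 2 + 2 * η) (eb := η)
    (Ca := C * |B|) (Cb := |B|) (by linarith) (by linarith) (by linarith) (by linarith) (by linarith)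
    (by positivity) (by positivity)
  refine ⟨Real.log (max 1 D), Real.log_nonneg (le_max_left _ _), fun i u => ?_⟩
  have hQ := H'.Q1 i u
  have hla : 0 ≤ la N mu (i, u) := Real.log_nonneg hQ
  have hlog : 0 ≤ Real.log (max 1 D) := Real.log_nonneg (le_max_left _ _)
  have h1 := hpl i (by
    intro t
    have e1 := hr i (1 / 2 + η) t (by linarith) (by linarith)
    have e2 := hBn i ⟨1 / 2 + (1 / 2 + η), t⟩ (by simp; linarith)
    have hQt := H'.Q1 i t
    have e0 : (⟨1 / 2 - (1 / 2 + η), t⟩ : ℂ) = ⟨-η, t⟩ := by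
      apply Complex.ext
      · simp
      · simp
    rw [e0] at e1
    have e3 : (⟨1 / 2 + (1 / 2 + η), t⟩ : ℂ).im = t := rfl
    rw [e3] at e2
    calc ‖f i ⟨-η, t⟩‖ ≤ C * QL (N i) (mu i) t ^ (1 / 2 + η) * ‖f i ⟨1 / 2 + (1 / 2 + η), t⟩‖ := e1
      _ ≤ C * QL (N i) (mu i) t ^ (1 / 2 + η) * (|B| * QL (N i) (mu i) t ^ η) :=
          mul_le_mul_of_nonneg_left e2 (by
            have : 0 ≤ QL (N i) (mu i) t ^ (1 / 2 + η) := Real.rpow_nonneg (by linarith) _
            positivity)
      _ = C * |B| * (QL (N i) (mu i) t ^ (1 / 2 + η) * QL (N i) (mu i) t ^ η) := by ring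
      _ = C * |B| * QL (N i) (mu i) t ^ (1 / 2 + 2 * η) := by
          rw [← Real.rpow_add (by linarith)]
          congr 2
          ring) (by
    intro t
    exact hBn i ⟨1 + η, t⟩ (by simp)) (1 / 2 + u * Complex.I) (by simp; linarith)
    (by simp; linarith)
  have him : (1 / 2 + u * Complex.I : ℂ).im = u := by simp
  have hre : (1 / 2 + u * Complex.I : ℂ).re = 1 / 2 := by simp
  rw [him, hre] at h1
  have hexp : 1 / 2 + 2 * η + (η - (1 / 2 + 2 * η)) / (1 + η - -η) * (1 / 2 - -η) ≤ 1 / 4 + ε := by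
    have h2 : (0 : ℝ) < 1 + η - -η := by linarith
    have h3 : 1 / 2 + 2 * η + (η - (1 / 2 + 2 * η)) / (1 + η - -η) * (1 / 2 - -η) =
        1 / 4 + 3 / 2 * η := by
      field_simp
      ring
    rw [h3]
    linarith
  by_cases hz : ‖f i (1 / 2 + u * Complex.I)‖ = 0
  · rw [hz, Real.log_zero]
    have : 0 ≤ (1 / 4 + ε) * la N mu (i, u) := mul_nonneg (by linarith) hla
    linarith
  · have h2 : ‖f i (1 / 2 + u * Complex.I)‖ ≤ max 1 D * QL (N i) (mu i) u ^ (1 / 4 + ε) := by
      refine h1.trans (mul_le_mul (le_max_right _ _)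
        (Real.rpow_le_rpow_of_exponent_le hQ hexp) (Real.rpow_nonneg (by linarith) _)
        (le_trans zero_le_one (le_max_left _ _)))
    have h3 := Real.log_le_log (lt_of_le_of_ne (norm_nonneg _) (Ne.symm hz)) h2
    rw [Real.log_mul (by positivity) (by positivity), Real.log_rpow (by linarith)] at h3
    have h4 : la N mu (i, u) = Real.log (QL (N i) (mu i) u) := rfl
    rw [h4]
    linarith

theorem main (_ : S_STRIP) : S_CVX := cvx

end Pool.Agent.N700.SC3
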