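import Pool.Agent.N795.SO.Stm
import Pool.Agent.N795.ST.Bas

/-!
# SO/PDE (helper700): the approximate Burgers equation in finite volume
-/

set_option autoImplicit false

namespace Pool.Agent.N795.SO.H700

open Finset

variable {Ω V : Type} [Fintype Ω] [Fintype V]

theorem var_step {J : V → V → ℝ} {ε S h : ℝ} (hJ0 : ∀ x y, 0 ≤ J x y)
    (hsym : ∀ x y, J x y = J y x) (hJε : ∀ x y, J x y ≤ ε) (hrow : ∀ x, ∑ y, J x y = S)
    (hε : 0 ≤ ε) (hS : 0 ≤ S) (hh : 0 < h) (δ : V → ℝ) (hδ : ∑ y, |δ y| ≤ 2 / h) :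
    ∑ i, (∑ y, J i y * δ y) ^ 2 ≤ 4 * ε * S / h ^ 2 := by
  have h0 : ∀ i, |∑ y, J i y * δ y| ≤ ∑ y, J i y * |δ y| := by
    intro i
    refine (Finset.abs_sum_le_sum_abs _ _).trans (le_of_eq ?_)
    refine Finset.sum_congr rfl fun y _ => ?_
    rw [abs_mul, abs_of_nonneg (hJ0 i y)]
  have h1 : ∀ i, |∑ y, J i y * δ y| ≤ 2 * ε / h := by
    intro i
    refine (h0 i).trans ?_
    calc ∑ y, J i y * |δ y| ≤ ∑ y, ε * |δ y| :=
          Finset.sum_le_sum fun y _ => mul_le_mul_of_nonneg_right (hJε i y) (abs_nonneg _)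
      _ = ε * ∑ y, |δ y| := by rw [Finset.mul_sum]
      _ ≤ ε * (2 / h) := mul_le_mul_of_nonneg_left hδ hε
      _ = 2 * ε / h := by ring
  have h2 : ∑ i, |∑ y, J i y * δ y| ≤ 2 * S / h := by
    calc ∑ i, |∑ y, J i y * δ y| ≤ ∑ i, ∑ y, J i y * |δ y| := Finset.sum_le_sum fun i _ => h0 i
      _ = ∑ y, ∑ i, J i y * |δ y| := Finset.sum_comm
      _ = ∑ y, S * |δ y| := by
          refine Finset.sum_congr rfl fun y _ => ?_
          rw [← Finset.sum_mul]
          congr 1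
          rw [← hrow y]
          exact Finset.sum_congr rfl fun i _ => hsym i y
      _ = S * ∑ y, |δ y| := by rw [Finset.mul_sum]
      _ ≤ S * (2 / h) := mul_le_mul_of_nonneg_left hδ hS
      _ = 2 * S / h := by ring
  calc ∑ i, (∑ y, J i y * δ y) ^ 2 ≤ ∑ i, 2 * ε / h * |∑ y, J i y * δ y| := by
        refine Finset.sum_le_sum fun i _ => ?_
        rw [← sq_abs, sq]
        exact mul_le_mul_of_nonneg_right (h1 i) (abs_nonneg _)
    _ = 2 * ε / h * ∑ i, |∑ y, J i y * δ y| := by rw [Finset.mul_sum]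
    _ ≤ 2 * ε / h * (2 * S / h) := mul_le_mul_of_nonneg_left h2 (by positivity)
    _ = 4 * ε * S / h ^ 2 := by ring

theorem var_sum {J : V → V → ℝ} {S c : ℝ} (hJ0 : ∀ x y, 0 ≤ J x y)
    (hrow : ∀ x, ∑ y, J x y = S) (D : V → V → V → ℝ)
    (hD : ∀ x y, ∑ i, D i x y ^ 2 ≤ c) :
    ∑ i, ∑ x, ∑ y, J x y / 2 * D i x y ^ 2 ≤ Fintype.card V * S / 2 * c := by
  calc ∑ i, ∑ x, ∑ y, J x y / 2 * D i x y ^ 2
      = ∑ x, ∑ i, ∑ y, J x y / 2 * D i x y ^ 2 := Finset.sum_comm
    _ = ∑ x, ∑ y, ∑ i, J x y / 2 * D i x y ^ 2 :=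
        Finset.sum_congr rfl fun x _ => Finset.sum_comm
    _ = ∑ x, ∑ y, J x y / 2 * ∑ i, D i x y ^ 2 := by
        simp only [Finset.mul_sum]
    _ ≤ ∑ x, ∑ y, J x y / 2 * c := Finset.sum_le_sum fun x _ => Finset.sum_le_sum fun y _ =>
        mul_le_mul_of_nonneg_left (hD x y) (div_nonneg (hJ0 x y) two_pos.le)
    _ = ∑ x : V, S / 2 * c := by
        refine Finset.sum_congr rfl fun x _ => ?_
        rw [← Finset.sum_mul, ← Finset.sum_div, hrow]
    _ = Fintype.card V * S / 2 * c := by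
        rw [Finset.sum_const, Finset.card_univ, nsmul_eq_mul]
        ring

theorem abs_main [Nonempty V] {w : Ω → ℝ} (hw : ∀ g, 0 ≤ w g) (hw1 : ∑ g, w g = 1) (J : V → V → ℝ)
    (A B : V → Ω → ℝ) {ε S t h b : ℝ} (hε : 0 ≤ ε) (hS : 0 ≤ S) (ht : 0 ≤ t) (hh : 0 < h)
    (hA0 : ∀ x g, 0 ≤ A x g) (hA1 : ∀ x g, A x g ≤ 1 / h)
    (R L : Ω → ℝ) (hR : ∀ g, R g = (∑ x, ∑ y, J x y * (A x g * B y g)) / Fintype.card V)
    (hL : ∀ g, |L g - R g| ≤ 4 * ε / h ^ 2)
    (hV : ∑ x, ∑ g, w g * ((∑ y, J x y * B y g) - S * b) ^ 2 ≤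
      t * (2 * ε * S ^ 2 * Fintype.card V / h ^ 2)) :
    |∑ g, w g * L g - S * b * ((∑ x, ∑ g, w g * A x g) / Fintype.card V)| ≤
      (4 * ε + 2 * S * √(t * ε)) / h ^ 2 := by
  obtain ⟨N, hN⟩ : ∃ N : ℝ, N = Fintype.card V := ⟨_, rfl⟩
  have hN0 : 0 < N := by rw [hN]; exact_mod_cast Fintype.card_pos
  rw [← hN] at hV ⊢
  simp only [← hN] at hR
  obtain ⟨D, hD⟩ : ∃ D : V → Ω → ℝ, D = fun x g => (∑ y, J x y * B y g) - S * b := ⟨_, rfl⟩
  have hV' : ∑ x, ∑ g, w g * D x g ^ 2 ≤ t * (2 * ε * S ^ 2 * N / h ^ 2) := by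
    rw [hD]; exact hV
  -- the main term
  have e1 : ∑ g, w g * R g = (∑ x, ∑ g, w g * A x g * D x g) / N +
      S * b * ((∑ x, ∑ g, w g * A x g) / N) := by
    have h1 : ∀ g, w g * R g = (∑ x, (w g * A x g * D x g + S * b * (w g * A x g))) / N := by
      intro g
      rw [hR, ← mul_div_assoc]
      congr 1
      rw [Finset.mul_sum]
      refine Finset.sum_congr rfl fun x _ => ?_
      rw [hD]
      have h2 : ∑ y, J x y * (A x g * B y g) = A x g * ∑ y, J x y * B y g := by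
        rw [Finset.mul_sum]
        exact Finset.sum_congr rfl fun y _ => by ring
      rw [h2]
      ring
    rw [Finset.sum_congr rfl fun g _ => h1 g, ← Finset.sum_div, Finset.sum_comm]
    rw [Finset.sum_congr rfl fun x _ => Finset.sum_add_distrib, Finset.sum_add_distrib, add_div]
    congr 1
    rw [← mul_div_assoc, Finset.mul_sum]
    congr 1
    refine Finset.sum_congr rfl fun x _ => ?_
    rw [Finset.mul_sum]
  have e2 : |∑ g, w g * L g - ∑ g, w g * R g| ≤ 4 * ε / h ^ 2 := by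
    rw [← Finset.sum_sub_distrib]
    refine (Finset.abs_sum_le_sum_abs _ _).trans ?_
    calc ∑ g, |w g * L g - w g * R g| ≤ ∑ g, w g * (4 * ε / h ^ 2) := by
          refine Finset.sum_le_sum fun g _ => ?_
          rw [← mul_sub, abs_mul, abs_of_nonneg (hw g)]
          exact mul_le_mul_of_nonneg_left (hL g) (hw g)
      _ = 4 * ε / h ^ 2 := by rw [← Finset.sum_mul, hw1, one_mul]
  -- the error
  obtain ⟨Q, hQ⟩ : ∃ Q : ℝ, Q = ∑ x, ∑ g, w g * |D x g| := ⟨_, rfl⟩
  have hQ0 : 0 ≤ Q := by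
    rw [hQ]
    exact Finset.sum_nonneg fun x _ => Finset.sum_nonneg fun g _ =>
      mul_nonneg (hw g) (abs_nonneg _)
  have hQ2 : Q ^ 2 ≤ N * (t * (2 * ε * S ^ 2 * N / h ^ 2)) := by
    have h1 := Finset.sum_sq_le_sum_mul_sum_of_sq_le_mul (univ : Finset (V × Ω))
      (r := fun p => w p.2 * |D p.1 p.2|) (f := fun p => w p.2)
      (g := fun p => w p.2 * D p.1 p.2 ^ 2) (fun p _ => hw p.2)
      (fun p _ => mul_nonneg (hw p.2) (sq_nonneg _)) (fun p _ => le_of_eq (by
        rw [mul_pow, sq_abs]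
        ring))
    rw [Fintype.sum_prod_type, Fintype.sum_prod_type, Fintype.sum_prod_type] at h1
    simp only [hw1] at h1
    rw [← hQ, Finset.sum_const, Finset.card_univ, nsmul_eq_mul, mul_one, ← hN] at h1
    exact h1.trans (mul_le_mul_of_nonneg_left hV' hN0.le)
  have hQ3 : Q ≤ 2 * N * S * √(t * ε) / h := by
    have h1 : 0 ≤ 2 * N * S * √(t * ε) / h := by positivity
    refine (pow_le_pow_iff_left₀ hQ0 h1 two_ne_zero).1 (hQ2.trans ?_)
    rw [div_pow, mul_pow, Real.sq_sqrt (mul_nonneg ht hε)]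
    have h2 : N * (t * (2 * ε * S ^ 2 * N / h ^ 2)) = 2 * (N * S) ^ 2 * (t * ε) / h ^ 2 := by ring
    rw [h2]
    apply div_le_div_of_nonneg_right _ (by positivity)
    have h3 : 0 ≤ (N * S) ^ 2 * (t * ε) := by positivity
    nlinarith
  have e3 : |(∑ x, ∑ g, w g * A x g * D x g) / N| ≤ 2 * S * √(t * ε) / h ^ 2 := by
    rw [abs_div, abs_of_pos hN0, div_le_iff₀ hN0]
    have h1 : |∑ x, ∑ g, w g * A x g * D x g| ≤ 1 / h * Q := by
      refine (Finset.abs_sum_le_sum_abs _ _).trans ?_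
      rw [hQ, Finset.mul_sum]
      refine Finset.sum_le_sum fun x _ => ?_
      refine (Finset.abs_sum_le_sum_abs _ _).trans ?_
      rw [Finset.mul_sum]
      refine Finset.sum_le_sum fun g _ => ?_
      rw [abs_mul, abs_mul, abs_of_nonneg (hw g), abs_of_nonneg (hA0 x g)]
      calc w g * A x g * |D x g| = A x g * (w g * |D x g|) := by ring
        _ ≤ 1 / h * (w g * |D x g|) :=
          mul_le_mul_of_nonneg_right (hA1 x g) (mul_nonneg (hw g) (abs_nonneg _))
    refine h1.trans ?_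
    calc 1 / h * Q ≤ 1 / h * (2 * N * S * √(t * ε) / h) :=
          mul_le_mul_of_nonneg_left hQ3 (by positivity)
      _ = 2 * S * √(t * ε) / h ^ 2 * N := by
          field_simp
  have e4 : ∑ g, w g * L g - S * b * ((∑ x, ∑ g, w g * A x g) / N) =
      (∑ g, w g * L g - ∑ g, w g * R g) + (∑ x, ∑ g, w g * A x g * D x g) / N := by
    rw [e1]; ring
  rw [e4]
  refine (abs_add_le _ _).trans ?_
  rw [add_div]
  exact add_le_add e2 e3

end Pool.Agent.N795.SO.H700

namespace Pool.Agent.N795.SO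

open Finset Equiv Filter Topology
open Pool.Agent.W805.LR (len)
open Pool.Agent.TH268.PD (law lap dlap)
open Pool.Agent.N795.ST (mn tr disp nrm)

theorem pde (hV : Vari) (hD : Det1) (hE : Ell) : Pde := by
  intro V _ _ _ J ε S t h hJ0 hsym hJε hrow hmean ht hh
  classical
  obtain ⟨hw, hw1⟩ := Pool.Agent.TH268.PD.law_prob J t ht hJ0
  obtain ⟨x0⟩ : Nonempty V := inferInstance
  have hε : 0 ≤ ε := (hJ0 x0 x0).trans (hJε x0 x0)
  have hS : 0 ≤ S := by
    rw [← hrow x0]
    exact Finset.sum_nonneg fun y _ => hJ0 x0 y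
  have hN0 : (0 : ℝ) < Fintype.card V := by exact_mod_cast Fintype.card_pos
  obtain ⟨A, hA⟩ : ∃ A : V → Perm V → ℝ, A = fun x g =>
    len g x * Real.exp (-(h * len g x)) := ⟨_, rfl⟩
  obtain ⟨B, hB⟩ : ∃ B : V → Perm V → ℝ, B = fun y g =>
    1 - Real.exp (-(h * len g y)) := ⟨_, rfl⟩
  have hA0 : ∀ x g, 0 ≤ A x g := by
    intro x g
    rw [hA]
    refine mul_nonneg ?_ (Real.exp_pos _).le
    unfold Pool.Agent.W805.LR.len Pool.Agent.W805.LR.cnt
    exact Finset.sum_nonneg fun _ _ => by split_ifs <;> norm_num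
  have hA1 : ∀ x g, A x g ≤ 1 / h := by
    intro x g
    rw [hA, le_div_iff₀ hh]
    have h1 := Real.add_one_le_exp (h * len g x)
    have h2 : Real.exp (h * len g x) * Real.exp (-(h * len g x)) = 1 := by
      rw [← Real.exp_add, add_neg_cancel, Real.exp_zero]
    have h3 := Real.exp_pos (-(h * len g x))
    have h4 : h * len g x * Real.exp (-(h * len g x)) ≤
        Real.exp (h * len g x) * Real.exp (-(h * len g x)) :=
      mul_le_mul_of_nonneg_right (by linarith) h3.le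
    show len g x * Real.exp (-(h * len g x)) * h ≤ 1
    linarith
  -- the means
  have hlap : mn J t (lap h) = (∑ v, mn J t (B v)) / Fintype.card V := by
    unfold mn
    rw [Finset.sum_comm, Finset.sum_div]
    refine Finset.sum_congr rfl fun g _ => ?_
    rw [← Finset.mul_sum, mul_div_assoc, hB]
    rfl
  have hdlap : mn J t (dlap h) = (∑ x, ∑ g, law J t g * A x g) / Fintype.card V := by
    unfold mn
    rw [Finset.sum_comm, Finset.sum_div]
    refine Finset.sum_congr rfl fun g _ => ?_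
    rw [← Finset.mul_sum, mul_div_assoc, hA]
    rfl
  have hB1 : ∀ y, mn J t (B y) = 1 - mn J t (fun g => Real.exp (-(h * len g y))) := by
    intro y
    rw [hB]
    show mn J t (fun g => 1 - Real.exp (-(h * len g y))) = _
    rw [Pool.Agent.N795.ST.mn_sub J t (fun _ => 1) (fun g => Real.exp (-(h * len g y))),
      Pool.Agent.N795.ST.mn_const hJ0 ht]
  have hb : ∀ y, mn J t (B y) = mn J t (lap h) := by
    intro y
    have h1 : ∀ v, mn J t (B v) = mn J t (B y) := by
      intro v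
      rw [hB1, hB1, hmean v y]
    rw [hlap, Finset.sum_congr rfl fun v _ => h1 v, Finset.sum_const, Finset.card_univ,
      nsmul_eq_mul]
    field_simp
  obtain ⟨F, hF⟩ : ∃ F : V → Perm V → ℝ, F = fun x g => ∑ y, J x y * B y g := ⟨_, rfl⟩
  have hFm : ∀ x, mn J t (F x) = S * mn J t (lap h) := by
    intro x
    have h1 : mn J t (F x) = ∑ y, J x y * mn J t (B y) := by
      rw [hF]
      unfold mn
      simp only [Finset.mul_sum]
      rw [Finset.sum_comm]
      exact Finset.sum_congr rfl fun y _ => Finset.sum_congr rfl fun g _ => by ring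
    rw [h1, Finset.sum_congr rfl fun y _ => by rw [hb y], ← Finset.sum_mul, hrow]
  have hvar := hV V V J t (2 * ε * S ^ 2 * Fintype.card V / h ^ 2) F hJ0 ht (by
    intro g₁ g₂
    refine (H700.var_sum (c := 4 * ε * S / h ^ 2) hJ0 hrow
      (fun i x y => F i (g₁ * swap x y * g₂) - F i (g₁ * g₂)) ?_).trans (le_of_eq ?_)
    · intro u v
      have e1 : g₁ * swap u v * g₂ = g₁ * g₂ * swap (g₂⁻¹ u) (g₂⁻¹ v) := by
        rw [mul_assoc, mul_assoc]
        congr 1
        rw [Equiv.mul_swap_eq_swap_mul]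
        simp
      have h1 := hE V h (g₁ * g₂) (g₂⁻¹ u) (g₂⁻¹ v) hh
      have h2 := H700.var_step hJ0 hsym hJε hrow hε hS hh
        (fun z => B z (g₁ * swap u v * g₂) - B z (g₁ * g₂)) (by
          refine le_trans (le_of_eq ?_) h1
          refine Finset.sum_congr rfl fun z _ => ?_
          rw [hB, e1]
          show |(1 - Real.exp (-(h * len (g₁ * g₂ * swap (g₂⁻¹ u) (g₂⁻¹ v)) z))) -
            (1 - Real.exp (-(h * len (g₁ * g₂) z)))| = _
          rw [abs_sub_comm]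
          congr 1
          ring)
      refine le_trans (le_of_eq ?_) h2
      refine Finset.sum_congr rfl fun i _ => ?_
      congr 1
      rw [hF]
      show ∑ y, J i y * B y (g₁ * swap u v * g₂) - ∑ y, J i y * B y (g₁ * g₂) = _
      rw [← Finset.sum_sub_distrib]
      exact Finset.sum_congr rfl fun y _ => by ring
    · ring)
  have hfin := H700.abs_main hw hw1 J A B (b := mn J t (lap h)) hε hS ht hh hA0 hA1
    (fun g => (∑ x, ∑ y, J x y * (A x g * B y g)) / Fintype.card V)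
    (fun g => ∑ x, ∑ y, J x y / 2 * (lap h (g * swap x y) - lap h g)) (fun g => rfl)
    (fun g => by
      have := hD V J ε h g hJ0 hsym hJε hh
      rw [hA, hB]
      exact this)
    (by
      refine le_trans (le_of_eq ?_) hvar
      refine Finset.sum_congr rfl fun x _ => ?_
      rw [hFm x, hF]
      rfl)
  rw [hdlap]
  exact hfin

end Pool.Agent.N795.SO
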